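import Pool.Agent.LibFF40.W1

/-! # Definitions: alternating triples of a word, slack vectors of a polytope -/

set_option autoImplicit false

noncomputable section

namespace Pool.Agent.LibFF40

open Finset

section words

variable {ι : Type} [LinearOrder ι]

/-- the triple `v = {i < j < l}` alternates in the word `w` -/
def Alt (w : ι → Bool) (v : Finset ι) : Prop :=
  ∃ i j l, i < j ∧ j < l ∧ w i ≠ w j ∧ w j ≠ w l ∧ v = {i, j, l}

/-- the alternating triples with letters in `A` -/
def TT (w : ι → Bool) (A : Finset ι) : Set (Finset ι) := {v | v ⊆ A ∧ Alt w v}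

/-- two triples share at least two letters -/
def R2 {ι : Type} [DecidableEq ι] (u v : Finset ι) : Prop := 2 ≤ (u ∩ v).card

/-- the letter `a'` is a twin of the letter `a` in `A` -/
def Twin (w : ι → Bool) (A : Finset ι) (a a' : ι) : Prop :=
  a ∈ A ∧ a' ∈ A ∧ a ≠ a' ∧ ∀ v ⊆ A, a' ∈ v → (Alt w v ↔ a ∉ v ∧ Alt w (insert a (v.erase a')))

/-- the elements of the set `T` form a closed list -/
def Closed {ι : Type} [DecidableEq ι] (T : Set (Finset ι)) : Prop :=
  ∃ v M, CL R2 v M ∧ ∀ x, x ∈ v :: M ↔ x ∈ T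

/-- the word with letters `0 1 0 1 ...` -/
def par (i : ℕ) : Bool := decide (i % 2 = 1)

end words

section pol

/-- the space -/
abbrev E (d : ℕ) : Type := EuclideanSpace ℝ (Fin d)

variable {d n : ℕ}

/-- the slack vector of the point `x` -/
def sl (a : Fin n → E d) (b : Fin n → ℝ) (x : E d) (i : Fin n) : ℝ := b i - inner ℝ (a i) x

/-- the inequalities which are not tight at `x` -/
def sp (a : Fin n → E d) (b : Fin n → ℝ) (x : E d) : Finset (Fin n) :=
  univ.filter fun i => sl a b x i ≠ 0

/-- `S` is the set of the vertices of the polytope given by `n` inequalities; at every vertex all but three of them are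
tight -/
structure Pol (a : Fin n → E d) (b : Fin n → ℝ) (S : Finset (E d)) : Prop where
  hull : convexHull ℝ (S : Set (E d)) = {x | ∀ i, inner ℝ (a i) x ≤ b i}
  vert : ∀ s ∈ S, s ∈ Set.extremePoints ℝ (convexHull ℝ (S : Set (E d)))
  ne : S.Nonempty
  three : ∀ s ∈ S, (sp a b s).card = 3
  dim : n = d + 3

/-- the relations: `∑ p_i s_i = ∑ q_i s_i = 0` -/
def Rel (p q s : Fin n → ℝ) : Prop := ∑ i, p i * s i = 0 ∧ ∑ i, q i * s i = 0

/-- the triple `K` is the support of a nonnegative relation -/
def Pos (p q : Fin n → ℝ) (K : Finset (Fin n)) : Prop :=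
  ∃ s : Fin n → ℝ, (∀ i ∈ K, 0 < s i) ∧ (∀ i ∉ K, s i = 0) ∧ Rel p q s

/-- `p`, `q` describe the space spanned by `b` and the vectors `(⟨a_i, x⟩)_i` -/
def Gale (a : Fin n → E d) (b p q : Fin n → ℝ) : Prop :=
  ∀ s : Fin n → ℝ, Rel p q s ↔ ∃ (c : ℝ) (x : E d), ∀ i, s i = c * b i - inner ℝ (a i) x

/-- the graph of the polytope with the vertices `S` -/
def gr (S : Finset (E d)) : SimpleGraph S :=
  SimpleGraph.fromRel (fun x y : S => IsExposed ℝ (convexHull ℝ (S : Set (E d))) (segment ℝ (x : E d) (y : E d)))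

end pol

end Pool.Agent.LibFF40
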