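import Pool.Agent.LibFF40.Defs

/-
PLAN (G1). ker: if t b = A x (A x = (<a_i, x>)_i) then t = 0 and x = 0. t = 0: for y in S the points y + r x, r real, satisfy all inequalities, so they are in convexHull S, which is bounded
(S finite: convexHull compact, Set.Finite.isCompact_convexHull), so x = 0. t /= 0: b = A x0, x0 = x / t. For y in S: A (y - x0) <= 0, so y + r (y - x0), r >= 0, is in the hull, bounded, so y = x0; then all
inequalities are tight at y, sp = empty, but its card is 3. gale: U = {c b - A x} is the range of the linear map R x E -> R^n, injective by ker, finrank U = d + 1 = n - 2. Its annihilator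
(Submodule.dualAnnihilator, or the orthogonal complement in EuclideanSpace, or quotient space of dimension 2 with a basis of 2 elements) has dimension 2: take two functionals
spanning it (if you like: U = ker of a surjective map onto R^2, from Submodule.Quotient of finrank 2 and a basis), s |-> sum p_i s_i, sum q_i s_i.
-/

set_option autoImplicit false

noncomputable section

namespace Pool.Agent.LibFF40

open Finset

variable {d n : ℕ}

private theorem G1_bdd {S : Finset (E d)} {y v : E d}
    (h : ∀ r : ℝ, 0 ≤ r → y + r • v ∈ convexHull ℝ (S : Set (E d))) : v = 0 := by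
  by_contra hv
  have hb : Bornology.IsBounded (convexHull ℝ (S : Set (E d))) := by
    rw [isBounded_convexHull]
    exact S.finite_toSet.isBounded
  obtain ⟨C, hC⟩ := hb.exists_norm_le
  have hv' : 0 < ‖v‖ := norm_pos_iff.2 hv
  have hC0 : 0 ≤ C := le_trans (norm_nonneg _) (hC _ (h 0 le_rfl))
  have h1 := hC _ (h ((C + ‖y‖ + 1) / ‖v‖) (by positivity))
  have h2 : ‖((C + ‖y‖ + 1) / ‖v‖) • v‖ = C + ‖y‖ + 1 := by
    rw [norm_smul, Real.norm_of_nonneg (by positivity)]
    field_simp
  have h3 : ‖((C + ‖y‖ + 1) / ‖v‖) • v‖ ≤ ‖y + ((C + ‖y‖ + 1) / ‖v‖) • v‖ + ‖y‖ := by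
    have h4 := norm_sub_le (y + ((C + ‖y‖ + 1) / ‖v‖) • v) y
    rwa [add_sub_cancel_left] at h4
  linarith

theorem ker {a : Fin n → E d} {b : Fin n → ℝ} {S : Finset (E d)} (h : Pol a b S) (t : ℝ) (x : E d)
    (ht : ∀ i, t * b i = inner ℝ (a i) x) : t = 0 ∧ x = 0 := by
  have hmem : ∀ z : E d, z ∈ convexHull ℝ (S : Set (E d)) ↔ ∀ i, inner ℝ (a i) z ≤ b i := by
    intro z
    rw [h.hull]
    rfl
  obtain ⟨y, hy⟩ := h.ne
  have hyS : y ∈ convexHull ℝ (S : Set (E d)) := subset_convexHull ℝ _ hy
  have hyi := (hmem y).1 hyS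
  by_cases h0 : t = 0
  · refine ⟨h0, G1_bdd (S := S) (y := y) ?_⟩
    intro r _
    rw [hmem]
    intro i
    have h1 := ht i
    rw [h0, zero_mul] at h1
    rw [inner_add_right, inner_smul_right, ← h1, mul_zero, add_zero]
    exact hyi i
  · exfalso
    have hx0 : ∀ i, inner ℝ (a i) (t⁻¹ • x) = b i := by
      intro i
      rw [inner_smul_right, ← ht i]
      field_simp
    have hv : y - t⁻¹ • x = 0 := by
      refine G1_bdd (S := S) (y := y) ?_
      intro r hr
      rw [hmem]
      intro i
      rw [inner_add_right, inner_smul_right, inner_sub_right, hx0 i]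
      have h1 := hyi i
      nlinarith [mul_nonneg hr (sub_nonneg.2 h1)]
    have hy2 : y = t⁻¹ • x := sub_eq_zero.1 hv
    have h3 := h.three y hy
    have h4 : sp a b y = ∅ := by
      rw [sp, Finset.filter_eq_empty_iff]
      intro i _ hi
      apply hi
      rw [sl, hy2, hx0 i, sub_self]
    rw [h4, Finset.card_empty] at h3
    omega

theorem gale {a : Fin n → E d} {b : Fin n → ℝ} {S : Finset (E d)} (h : Pol a b S) :
    ∃ p q : Fin n → ℝ, Gale a b p q := by
  obtain ⟨L, hL⟩ : ∃ L : (ℝ × E d) →ₗ[ℝ] (Fin n → ℝ), ∀ z i, L z i = z.1 * b i - inner ℝ (a i) z.2 := by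
    refine ⟨{ toFun := fun z i => z.1 * b i - inner ℝ (a i) z.2, map_add' := ?_, map_smul' := ?_ }, fun z i => rfl⟩
    · intro z w
      funext i
      simp only [Prod.fst_add, Prod.snd_add, inner_add_right, Pi.add_apply]
      ring
    · intro r z
      funext i
      simp only [Prod.smul_fst, Prod.smul_snd, inner_smul_right, Pi.smul_apply, smul_eq_mul, RingHom.id_apply]
      ring
  have hinj : Function.Injective L := by
    rw [injective_iff_map_eq_zero]
    rintro ⟨c, x⟩ hz
    obtain ⟨h1, h2⟩ := ker h c x (fun i => by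
      have h3 := congrFun hz i
      rw [hL] at h3
      simp only [Pi.zero_apply] at h3
      linarith)
    rw [h1, h2]
    rfl
  have hdim : Module.finrank ℝ ((Fin n → ℝ) ⧸ LinearMap.range L) = 2 := by
    have h1 := Submodule.finrank_quotient_add_finrank (LinearMap.range L)
    rw [LinearMap.finrank_range_of_inj hinj, Module.finrank_prod, Module.finrank_self, finrank_euclideanSpace,
      Fintype.card_fin, Module.finrank_fin_fun] at h1
    have h2 := h.dim
    omega
  have B := Module.finBasisOfFinrankEq ℝ _ hdim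
  obtain ⟨f, hf⟩ : ∃ f : Fin 2 → ((Fin n → ℝ) →ₗ[ℝ] ℝ), f = fun j => (B.coord j).comp (LinearMap.range L).mkQ := ⟨_, rfl⟩
  have hsum : ∀ j s, ∑ i, f j (fun k => if i = k then 1 else 0) * s i = f j s := by
    intro j s
    rw [LinearMap.pi_apply_eq_sum_univ (f j) s]
    refine Finset.sum_congr rfl fun i _ => ?_
    rw [smul_eq_mul, mul_comm]
  refine ⟨fun i => f 0 (fun k => if i = k then 1 else 0), fun i => f 1 (fun k => if i = k then 1 else 0), ?_⟩
  intro s
  rw [Rel, hsum, hsum]
  have h1 : (f 0 s = 0 ∧ f 1 s = 0) ↔ (LinearMap.range L).mkQ s = 0 := by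
    constructor
    · rintro ⟨h2, h3⟩
      rw [← B.forall_coord_eq_zero_iff]
      intro j
      fin_cases j
      · rw [hf] at h2
        exact h2
      · rw [hf] at h3
        exact h3
    · intro h2
      rw [hf]
      simp only [LinearMap.comp_apply, h2, map_zero, and_self]
  rw [h1, Submodule.mkQ_apply, Submodule.Quotient.mk_eq_zero, LinearMap.mem_range]
  constructor
  · rintro ⟨z, hz⟩
    exact ⟨z.1, z.2, fun i => by rw [← hz, hL]⟩
  · rintro ⟨c, x, hcx⟩
    exact ⟨(c, x), funext fun i => by rw [hL, hcx i]⟩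

end Pool.Agent.LibFF40
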