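import Pool.Agent.LibFF40.G1

/-
PLAN (G2). pos_pt: s >= 0, s /= 0, s_i = c b_i - <a_i, x> (Gale). Claim c > 0: for y in S (slack sl y >= 0): if c <= 0 then s + |c| sl y = -A (x + |c| y) >= 0, so A z <= 0 with z = x + |c| y, so y + r z (r >= 0) is in the
bounded hull, z = 0, so s + |c| sl y = 0 and s = 0. Then s = c sl (x / c), x / c is in the hull (s >= 0). sub: y in convexHull S is a convex combination sum w_v v (Finset.mem_convexHull' or
Finset.mem_convexHull), sl is affine: sl y = sum w_v sl v, all sl v >= 0, so for v with w_v > 0: sl v i > 0 implies sl y i > 0: sp v ⊆ sp y. face: the same for all v with w_v > 0: y is in the convex hull of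
the v in S with sp v ⊆ sp y. three_le: combine: s >= 0, s /= 0 a relation: there is v in S with sp v ⊆ support of s.
-/

set_option autoImplicit false

noncomputable section

namespace Pool.Agent.LibFF40

open Finset

variable {d n : ℕ}

private theorem G2_slack {a : Fin n → E d} {b : Fin n → ℝ} {S : Finset (E d)} (h : Pol a b S) {y : E d}
    (hy : y ∈ convexHull ℝ (S : Set (E d))) (i : Fin n) : 0 ≤ sl a b y i := by
  rw [h.hull] at hy
  exact sub_nonneg.2 (hy i)

private theorem G2_mem {a : Fin n → E d} {b : Fin n → ℝ} {S : Finset (E d)} (h : Pol a b S) {y : E d}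
    (hy : ∀ i, 0 ≤ sl a b y i) : y ∈ convexHull ℝ (S : Set (E d)) := by
  rw [h.hull]
  exact fun i => sub_nonneg.1 (hy i)

theorem pos_pt {a : Fin n → E d} {b p q : Fin n → ℝ} {S : Finset (E d)} (h : Pol a b S) (hg : Gale a b p q)
    (s : Fin n → ℝ) (h0 : ∀ i, 0 ≤ s i) (hne : ∃ i, s i ≠ 0) (hs : Rel p q s) :
    ∃ (c : ℝ) (y : E d), 0 < c ∧ y ∈ convexHull ℝ (S : Set (E d)) ∧ ∀ i, s i = c * sl a b y i := by
  obtain ⟨c, x, hx⟩ := (hg s).1 hs
  obtain ⟨y, hyS⟩ := h.ne
  have hy : y ∈ convexHull ℝ (S : Set (E d)) := subset_convexHull ℝ _ hyS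
  have hc : 0 < c := by
    by_contra hc
    push Not at hc
    have hz : ∀ i, s i + (-c) * sl a b y i = - inner ℝ (a i) (x - c • y) := by
      intro i
      rw [hx i, inner_sub_right, inner_smul_right, sl]
      ring
    have hzle : ∀ i, inner ℝ (a i) (x - c • y) ≤ 0 := by
      intro i
      have h1 := hz i
      have h2 : 0 ≤ (-c) * sl a b y i := mul_nonneg (by linarith) (G2_slack h hy i)
      have h3 := h0 i
      linarith
    have hray : ∀ r : ℝ, 0 ≤ r → y + r • (x - c • y) ∈ convexHull ℝ (S : Set (E d)) := by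
      intro r hr
      refine G2_mem h fun i => ?_
      have h1 := G2_slack h hy i
      have h2 : r * inner ℝ (a i) (x - c • y) ≤ 0 := mul_nonpos_of_nonneg_of_nonpos hr (hzle i)
      unfold sl at h1 ⊢
      rw [inner_add_right, inner_smul_right]
      linarith
    obtain ⟨B, hB⟩ := (S.finite_toSet.isCompact_convexHull (𝕜 := ℝ)).isBounded.exists_norm_le
    have hz0 : x - c • y = 0 := by
      by_contra hne0
      have hzn : 0 < ‖x - c • y‖ := norm_pos_iff.2 hne0
      have hB0 : 0 ≤ B := (norm_nonneg y).trans (hB y hy)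
      have h1 := hB _ (hray ((B + ‖y‖ + 1) / ‖x - c • y‖) (by positivity))
      have h2 : ‖((B + ‖y‖ + 1) / ‖x - c • y‖) • (x - c • y)‖ = B + ‖y‖ + 1 := by
        rw [norm_smul, Real.norm_of_nonneg (by positivity), div_mul_cancel₀ _ hzn.ne']
      have h3 := norm_sub_le (y + ((B + ‖y‖ + 1) / ‖x - c • y‖) • (x - c • y)) y
      rw [add_sub_cancel_left, h2] at h3
      linarith
    obtain ⟨i, hi⟩ := hne
    apply hi
    have h1 := hz i
    rw [hz0, inner_zero_right, neg_zero] at h1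
    have h2 : 0 ≤ (-c) * sl a b y i := mul_nonneg (by linarith) (G2_slack h hy i)
    have h3 := h0 i
    linarith
  have hs2 : ∀ i, s i = c * sl a b (c⁻¹ • x) i := by
    intro i
    rw [hx i, sl, inner_smul_right]
    field_simp
  refine ⟨c, c⁻¹ • x, hc, G2_mem h fun i => ?_, hs2⟩
  have h1 := h0 i
  rw [hs2 i] at h1
  exact (mul_nonneg_iff_of_pos_left hc).1 h1

theorem face {a : Fin n → E d} {b : Fin n → ℝ} {S : Finset (E d)} (h : Pol a b S) (y : E d)
    (hy : y ∈ convexHull ℝ (S : Set (E d))) :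
    y ∈ convexHull ℝ {v : E d | v ∈ S ∧ sp a b v ⊆ sp a b y} := by
  classical
  obtain ⟨w, hw0, hw1, hwy⟩ := Finset.mem_convexHull'.1 hy
  have hsl : ∀ i, sl a b y i = ∑ v ∈ S, w v * sl a b v i := by
    intro i
    have h1 : inner ℝ (a i) y = ∑ v ∈ S, w v * inner ℝ (a i) v := by
      rw [← hwy, inner_sum]
      exact Finset.sum_congr rfl fun v _ => inner_smul_right _ _ _
    have h2 : b i = ∑ v ∈ S, w v * b i := by rw [← Finset.sum_mul, hw1, one_mul]
    unfold sl
    rw [h1]
    conv_lhs => rw [h2]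
    rw [← Finset.sum_sub_distrib]
    exact Finset.sum_congr rfl fun v _ => by ring
  have hsp : ∀ v ∈ S, w v ≠ 0 → sp a b v ⊆ sp a b y := by
    intro v hv hwv i hi
    unfold sp at hi ⊢
    rw [Finset.mem_filter] at hi ⊢
    refine ⟨Finset.mem_univ i, ?_⟩
    have hpos : 0 < sl a b v i :=
      lt_of_le_of_ne (G2_slack h (subset_convexHull ℝ _ hv) i) (Ne.symm hi.2)
    have hwpos : 0 < w v := lt_of_le_of_ne (hw0 v hv) (Ne.symm hwv)
    rw [hsl i]
    refine ne_of_gt (lt_of_lt_of_le (mul_pos hwpos hpos)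
      (Finset.single_le_sum (f := fun v => w v * sl a b v i) (fun u hu => ?_) hv))
    exact mul_nonneg (hw0 u hu) (G2_slack h (subset_convexHull ℝ _ hu) i)
  have hmem : y ∈ convexHull ℝ ((S.filter fun v => w v ≠ 0 : Finset (E d)) : Set (E d)) := by
    refine Finset.mem_convexHull'.2 ⟨w, fun v hv => hw0 v (Finset.mem_filter.1 hv).1, ?_, ?_⟩
    · rw [← hw1]
      exact Finset.sum_filter_ne_zero S
    · rw [← hwy]
      refine Finset.sum_subset (Finset.filter_subset _ S) fun v hv hv2 => ?_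
      have h1 : w v = 0 := by
        by_contra h2
        exact hv2 (Finset.mem_filter.2 ⟨hv, h2⟩)
      rw [h1, zero_smul]
  refine convexHull_mono ?_ hmem
  intro v hv
  rw [Finset.mem_coe, Finset.mem_filter] at hv
  exact ⟨hv.1, hsp v hv.1 hv.2⟩

theorem three_le {a : Fin n → E d} {b p q : Fin n → ℝ} {S : Finset (E d)} (h : Pol a b S) (hg : Gale a b p q)
    (s : Fin n → ℝ) (h0 : ∀ i, 0 ≤ s i) (hne : ∃ i, s i ≠ 0) (hs : Rel p q s) :
    ∃ v ∈ S, sp a b v ⊆ univ.filter fun i => s i ≠ 0 := by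
  obtain ⟨c, y, hc, hy, hsy⟩ := pos_pt h hg s h0 hne hs
  have h1 := face h y hy
  have hne2 : {v : E d | v ∈ S ∧ sp a b v ⊆ sp a b y}.Nonempty := by
    rw [← convexHull_nonempty_iff (𝕜 := ℝ)]
    exact ⟨y, h1⟩
  obtain ⟨v, hv, hvs⟩ := hne2
  refine ⟨v, hv, hvs.trans fun i hi => ?_⟩
  unfold sp at hi
  rw [Finset.mem_filter] at hi ⊢
  refine ⟨hi.1, ?_⟩
  rw [hsy i]
  exact mul_ne_zero hc.ne' hi.2

end Pool.Agent.LibFF40
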