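import Pool.Agent.LibFF40.G2

/-
PLAN (G3). rel_sl: sl v = 1 * b - A v. sp_inj: v, v' in S with the same support K (three elements). s = sl v, s' = sl v' are positive on K, zero outside. Let t = min over K of s_i / s'_i > 0: s - t s' >= 0 is a
relation with support in K minus one element; if it is not zero, three_le gives a vertex with at most two inequalities not tight, contradiction with Pol.three; so s = t s', so (1 - t) b = A (v - t v'), ker: t = 1, v = v'.
pos_iff: sp v is Pos (s = sl v); conversely a positive relation on K with three elements: three_le gives v in S with sp v ⊆ K, equality by the cardinalities.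
-/

set_option autoImplicit false

noncomputable section

namespace Pool.Agent.LibFF40

open Finset

variable {d n : ℕ}

private theorem G3_nonneg {a : Fin n → E d} {b : Fin n → ℝ} {S : Finset (E d)} (h : Pol a b S)
    {v : E d} (hv : v ∈ S) (i : Fin n) : 0 ≤ sl a b v i := by
  have h1 : v ∈ convexHull ℝ (S : Set (E d)) := subset_convexHull ℝ _ (by exact_mod_cast hv)
  rw [h.hull] at h1
  have h2 := h1 i
  unfold sl
  linarith

private theorem G3_mem {a : Fin n → E d} {b : Fin n → ℝ} {v : E d} {i : Fin n} :
    i ∈ sp a b v ↔ sl a b v i ≠ 0 := by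
  unfold sp
  rw [Finset.mem_filter]
  simp

theorem rel_sl {a : Fin n → E d} {b p q : Fin n → ℝ} (hg : Gale a b p q) (x : E d) : Rel p q (sl a b x) := by
  refine (hg _).2 ⟨1, x, fun i => ?_⟩
  unfold sl
  rw [one_mul]

theorem sp_inj {a : Fin n → E d} {b p q : Fin n → ℝ} {S : Finset (E d)} (h : Pol a b S) (hg : Gale a b p q)
    {v v' : E d} (hv : v ∈ S) (hv' : v' ∈ S) (he : sp a b v = sp a b v') : v = v' := by
  have hcard := h.three v hv
  have hne : (sp a b v).Nonempty := Finset.card_pos.1 (by omega)
  obtain ⟨i0, hi0, hmin⟩ := Finset.exists_min_image (sp a b v) (fun i => sl a b v i / sl a b v' i) hne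
  have hpos : ∀ i ∈ sp a b v, 0 < sl a b v i := fun i hi =>
    lt_of_le_of_ne (G3_nonneg h hv i) (Ne.symm (G3_mem.1 hi))
  have hpos' : ∀ i ∈ sp a b v, 0 < sl a b v' i := fun i hi =>
    lt_of_le_of_ne (G3_nonneg h hv' i) (Ne.symm (G3_mem.1 (he ▸ hi)))
  have hz : ∀ i, i ∉ sp a b v → sl a b v i = 0 := fun i hi => by
    by_contra h1
    exact hi (G3_mem.2 h1)
  have hz' : ∀ i, i ∉ sp a b v → sl a b v' i = 0 := fun i hi => by
    by_contra h1
    exact hi (he ▸ (G3_mem.2 h1))
  set t : ℝ := sl a b v i0 / sl a b v' i0 with ht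
  have hr0 : ∀ i, 0 ≤ sl a b v i - t * sl a b v' i := by
    intro i
    by_cases hi : i ∈ sp a b v
    · have h1 := hmin i hi
      rw [le_div_iff₀ (hpos' i hi)] at h1
      linarith
    · rw [hz i hi, hz' i hi]
      simp
  have hri0 : sl a b v i0 - t * sl a b v' i0 = 0 := by
    rw [ht, div_mul_cancel₀ _ (hpos' i0 hi0).ne', sub_self]
  have hrel : Rel p q (fun i => sl a b v i - t * sl a b v' i) := by
    have h1 := rel_sl hg v
    have h2 := rel_sl hg v'
    unfold Rel at h1 h2 ⊢
    constructor
    · have e : ∑ i, p i * (sl a b v i - t * sl a b v' i) =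
          ∑ i, p i * sl a b v i - t * ∑ i, p i * sl a b v' i := by
        rw [Finset.mul_sum, ← Finset.sum_sub_distrib]
        exact Finset.sum_congr rfl fun i _ => by ring
      rw [e, h1.1, h2.1]
      simp
    · have e : ∑ i, q i * (sl a b v i - t * sl a b v' i) =
          ∑ i, q i * sl a b v i - t * ∑ i, q i * sl a b v' i := by
        rw [Finset.mul_sum, ← Finset.sum_sub_distrib]
        exact Finset.sum_congr rfl fun i _ => by ring
      rw [e, h1.2, h2.2]
      simp
  have hall : ∀ i, sl a b v i - t * sl a b v' i = 0 := by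
    by_contra hcon
    push Not at hcon
    obtain ⟨w, hw, hsub⟩ := three_le h hg _ hr0 hcon hrel
    have h3 := h.three w hw
    have hsub2 : sp a b w ⊆ (sp a b v).erase i0 := by
      intro i hi
      have h4 := hsub hi
      rw [Finset.mem_filter] at h4
      rw [Finset.mem_erase]
      refine ⟨?_, ?_⟩
      · rintro rfl
        exact h4.2 hri0
      · by_contra h5
        apply h4.2
        rw [hz i h5, hz' i h5]
        simp
    have h6 := Finset.card_le_card hsub2
    rw [Finset.card_erase_of_mem hi0] at h6
    omega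
  have hk := ker h (1 - t) (v - t • v') (fun i => by
    have h1 := hall i
    unfold sl at h1
    rw [inner_sub_right, inner_smul_right]
    linarith)
  have ht1 : t = 1 := by linarith [hk.1]
  have h7 := hk.2
  rw [ht1, one_smul] at h7
  exact sub_eq_zero.1 h7

theorem pos_iff {a : Fin n → E d} {b p q : Fin n → ℝ} {S : Finset (E d)} (h : Pol a b S) (hg : Gale a b p q)
    (K : Finset (Fin n)) (hK : K.card = 3) : Pos p q K ↔ ∃ v ∈ S, sp a b v = K := by
  constructor
  · rintro ⟨s, hpos, hzero, hrel⟩
    have hne : K.Nonempty := Finset.card_pos.1 (by omega)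
    obtain ⟨k, hk⟩ := hne
    obtain ⟨v, hv, hsub⟩ := three_le h hg s (fun i => by
      by_cases hi : i ∈ K
      · exact (hpos i hi).le
      · rw [hzero i hi]) ⟨k, (hpos k hk).ne'⟩ hrel
    refine ⟨v, hv, ?_⟩
    apply Finset.eq_of_subset_of_card_le
    · intro i hi
      have h4 := hsub hi
      rw [Finset.mem_filter] at h4
      by_contra h5
      exact h4.2 (hzero i h5)
    · rw [hK, h.three v hv]
  · rintro ⟨v, hv, rfl⟩
    refine ⟨sl a b v, fun i hi => ?_, fun i hi => ?_, rel_sl hg v⟩
    · exact lt_of_le_of_ne (G3_nonneg h hv i) (Ne.symm (G3_mem.1 hi))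
    · by_contra h1
      exact hi (G3_mem.2 h1)

end Pool.Agent.LibFF40
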