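import Pool.Agent.LibFF40.G2

/-
PLAN (G4). Let J be the complement of Q = sp v ∪ sp v' (the inequalities tight at v and at v'), l = sum over J of <a_i, .>, a continuous linear functional (innerSL). On the hull l <= sum over J of b_i with equality
iff all inequalities of J are tight. The set where it is maximal is {y in hull, sp y ⊆ Q} (v is in it). It contains the segment (affine). If y is in it then by `face` y is in the convex hull of the vertices x in S
with sp x ⊆ sp y ⊆ Q; by the hypothesis these are v and v' (convexHull_pair). IsExposed: convexHull S nonempty face -> exists l, the set = {x in A | for all y in A, l y <= l x}.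
-/

set_option autoImplicit false

noncomputable section

namespace Pool.Agent.LibFF40

open Finset

variable {d n : ℕ}

theorem edge {a : Fin n → E d} {b : Fin n → ℝ} {S : Finset (E d)} (h : Pol a b S) {v v' : E d} (hv : v ∈ S)
    (hv' : v' ∈ S) (hQ : ∀ x ∈ S, sp a b x ⊆ sp a b v ∪ sp a b v' → x = v ∨ x = v') :
    IsExposed ℝ (convexHull ℝ (S : Set (E d))) (segment ℝ v v') := by
  intro _
  obtain ⟨J, hJ⟩ : ∃ J : Finset (Fin n), J = univ.filter
      (fun i => i ∉ sp a b v ∧ i ∉ sp a b v') := ⟨_, rfl⟩
  have htight : ∀ {w : E d} {i : Fin n}, i ∉ sp a b w → inner ℝ (a i) w = b i := by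
    intro w i hi
    unfold sp at hi
    rw [mem_filter, not_and, not_not] at hi
    have h1 := hi (mem_univ i)
    unfold sl at h1
    linarith
  have hin : ∀ {w : E d}, w ∈ convexHull ℝ (S : Set (E d)) → ∀ i, inner ℝ (a i) w ≤ b i := by
    intro w hw
    rw [h.hull] at hw
    exact hw
  have hvC : v ∈ convexHull ℝ (S : Set (E d)) := subset_convexHull ℝ _ hv
  have hvC' : v' ∈ convexHull ℝ (S : Set (E d)) := subset_convexHull ℝ _ hv'
  have hl : ∀ x : E d, (∑ i ∈ J, innerSL ℝ (a i)) x = ∑ i ∈ J, inner ℝ (a i) x := by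
    intro x
    rw [_root_.sum_apply]
    rfl
  have hlv : (∑ i ∈ J, innerSL ℝ (a i)) v = ∑ i ∈ J, b i := by
    rw [hl]
    refine sum_congr rfl fun i hi => ?_
    rw [hJ, mem_filter] at hi
    exact htight hi.2.1
  have hlv' : (∑ i ∈ J, innerSL ℝ (a i)) v' = ∑ i ∈ J, b i := by
    rw [hl]
    refine sum_congr rfl fun i hi => ?_
    rw [hJ, mem_filter] at hi
    exact htight hi.2.2
  refine ⟨∑ i ∈ J, innerSL ℝ (a i), ?_⟩
  ext x
  constructor
  · intro hx
    refine ⟨(convex_convexHull ℝ _).segment_subset hvC hvC' hx, fun y hy => ?_⟩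
    obtain ⟨α, β, _, _, hαβ, rfl⟩ := hx
    rw [map_add, map_smul, map_smul, hlv, hlv', hl, ← add_smul, hαβ, one_smul]
    exact sum_le_sum fun i _ => hin hy i
  · rintro ⟨hxC, hx⟩
    have h1 := hx v hvC
    rw [hlv, hl] at h1
    have h2 : ∑ i ∈ J, inner ℝ (a i) x ≤ ∑ i ∈ J, b i := sum_le_sum fun i _ => hin hxC i
    have h3 := (sum_eq_sum_iff_of_le (fun i (_ : i ∈ J) => hin hxC i)).1 (le_antisymm h2 h1)
    have h4 : sp a b x ⊆ sp a b v ∪ sp a b v' := by
      intro i hi
      rw [mem_union]
      by_contra h5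
      rw [not_or] at h5
      have h6 : i ∈ J := by
        rw [hJ, mem_filter]
        exact ⟨mem_univ i, h5⟩
      have h7 := h3 i h6
      unfold sp sl at hi
      rw [mem_filter] at hi
      exact hi.2 (by linarith)
    have h5 := face h x hxC
    rw [← convexHull_pair]
    refine convexHull_mono ?_ h5
    rintro w ⟨hwS, hw⟩
    rcases hQ w hwS (hw.trans h4) with h6 | h6
    · exact Or.inl h6
    · exact Or.inr h6

end Pool.Agent.LibFF40
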