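import Pool.Agent.LibFF40.G2

/-
PLAN (G5). three_le: no nonnegative nonzero relation has a support with at most two elements (the support of a vertex has three). So (p_i, q_i) /= 0 (s = indicator of i). generic: replace p by p + r q with r outside the
finite set of the -p_i / q_i: all p_i + r q_i /= 0, Rel is the same condition. Now p_i /= 0; key t_i = q_i / p_i, sign 0 < p_i. same_sign: if t_i = t_j, i /= j, with different signs, then s = |p_j| e_i + |p_i| e_j is a
nonnegative relation with two elements. pos_alt: C_i = s_i p_i: sum C = 0, sum t C = 0. For g i < g j < g l (g = (t, index) lexicographic, so t_i <= t_j <= t_l): (=>) subtract t_j times the first: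
(t_i - t_j) C_i + (t_l - t_j) C_l = 0 with C_i, C_l /= 0: t_i = t_j iff t_j = t_l, and then all three signs are equal (same_sign), contradiction to sum C = 0; so t_i < t_j < t_l, C_i and C_l have
the same sign and C_j = -(C_i + C_l) the other one. (<=) different neighbouring signs: t_i < t_j < t_l (same_sign), C_i = (t_l - t_j) sigma, C_j = -(t_l - t_i) sigma, C_l = (t_j - t_i) sigma, sigma = 1 or -1 = sign of p_i,
s = C / p.
-/

set_option autoImplicit false

noncomputable section

namespace Pool.Agent.LibFF40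

open Finset

variable {d n : ℕ}

/-- the position of the letter `i` -/
def gk (p q : Fin n → ℝ) (i : Fin n) : ℝ ×ₗ Fin n := toLex (q i / p i, i)

/-- the sign of the letter -/
def sg (p : Fin n → ℝ) (x : ℝ ×ₗ Fin n) : Bool := decide (0 < p (ofLex x).2)

private theorem G5_sg {p q : Fin n → ℝ} (i : Fin n) : sg p (gk p q i) = decide (0 < p i) := rfl

private theorem G5_inj (p q : Fin n → ℝ) : Function.Injective (gk p q) := by
  intro i j hij
  have h1 : (ofLex (gk p q i)).2 = (ofLex (gk p q j)).2 := by rw [hij]
  exact h1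

private theorem G5_le {p q : Fin n → ℝ} {i j : Fin n} (h : gk p q i < gk p q j) :
    q i / p i ≤ q j / p j := by
  unfold gk at h
  rw [Prod.Lex.toLex_lt_toLex] at h
  rcases h with h | h
  · exact h.le
  · exact h.1.le

private theorem G5_small {a : Fin n → E d} {b p q : Fin n → ℝ} {S : Finset (E d)} (h : Pol a b S)
    (hg : Gale a b p q) (s : Fin n → ℝ) (h0 : ∀ i, 0 ≤ s i) (hne : ∃ i, s i ≠ 0) (hs : Rel p q s)
    (K : Finset (Fin n)) (hK : K.card ≤ 2) (hz : ∀ i ∉ K, s i = 0) : False := by
  obtain ⟨v, hv, hsub⟩ := three_le h hg s h0 hne hs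
  have h3 := h.three v hv
  have h4 : sp a b v ⊆ K := by
    intro i hi
    have h5 := hsub hi
    rw [Finset.mem_filter] at h5
    by_contra h6
    exact h5.2 (hz i h6)
  have h7 := Finset.card_le_card h4
  omega

private theorem G5_sum_one (p s : Fin n → ℝ) (i : Fin n) (hz : ∀ x, x ≠ i → s x = 0) :
    ∑ x, p x * s x = p i * s i := by
  rw [Finset.sum_eq_single i]
  · intro x _ hx
    rw [hz x hx, mul_zero]
  · intro hx
    exact absurd (Finset.mem_univ i) hx

private theorem G5_sum_two (p s : Fin n → ℝ) (i j : Fin n) (hij : i ≠ j)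
    (hz : ∀ x, x ∉ ({i, j} : Finset (Fin n)) → s x = 0) :
    ∑ x, p x * s x = p i * s i + p j * s j := by
  rw [← Finset.sum_subset (Finset.subset_univ ({i, j} : Finset (Fin n)))]
  · rw [Finset.sum_pair hij]
  · intro x _ hx
    rw [hz x hx, mul_zero]

private theorem G5_sum_three (p s : Fin n → ℝ) (i j l : Fin n) (hij : i ≠ j) (hil : i ≠ l)
    (hjl : j ≠ l) (hz : ∀ x, x ∉ ({i, j, l} : Finset (Fin n)) → s x = 0) :
    ∑ x, p x * s x = p i * s i + p j * s j + p l * s l := by
  rw [← Finset.sum_subset (Finset.subset_univ ({i, j, l} : Finset (Fin n)))]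
  · rw [Finset.sum_insert (by simp [hij, hil]), Finset.sum_pair hjl]
    ring
  · intro x _ hx
    rw [hz x hx, mul_zero]

private theorem G5_same {a : Fin n → E d} {b p q : Fin n → ℝ} {S : Finset (E d)} (h : Pol a b S)
    (hg : Gale a b p q) (hp : ∀ i, p i ≠ 0) {i j : Fin n} (hij : i ≠ j)
    (ht : q i / p i = q j / p j) (hi : 0 < p i) (hj : p j < 0) : False := by
  have hz : ∀ x, x ∉ ({i, j} : Finset (Fin n)) →
      (if x = i then - p j else if x = j then p i else 0) = 0 := by
    intro x hx
    simp only [Finset.mem_insert, Finset.mem_singleton, not_or] at hx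
    rw [if_neg hx.1, if_neg hx.2]
  refine G5_small h hg (fun x => if x = i then - p j else if x = j then p i else 0) ?_ ⟨i, ?_⟩ ?_
    {i, j} (Finset.card_le_two) hz
  · intro x
    by_cases h1 : x = i
    · simp only [h1, if_true]
      linarith
    · by_cases h2 : x = j
      · simp only [h2, if_neg hij.symm, if_true]
        linarith
      · simp only [if_neg h1, if_neg h2]
        exact le_refl _
  · simp only [if_true]
    intro h1
    linarith
  · constructor
    · rw [G5_sum_two p _ i j hij hz]
      simp only [if_true, if_neg hij.symm]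
      ring
    · rw [G5_sum_two q _ i j hij hz]
      simp only [if_true, if_neg hij.symm]
      rw [div_eq_div_iff (hp i) (hp j)] at ht
      linarith

theorem generic {a : Fin n → E d} {b : Fin n → ℝ} {S : Finset (E d)} (h : Pol a b S) :
    ∃ p q : Fin n → ℝ, Gale a b p q ∧ ∀ i, p i ≠ 0 := by
  obtain ⟨p, q, hg⟩ := gale h
  have hne : ∀ i, p i ≠ 0 ∨ q i ≠ 0 := by
    intro i
    by_contra hcon
    push Not at hcon
    have hz : ∀ x, x ≠ i → (if x = i then (1 : ℝ) else 0) = 0 := fun x hx => by rw [if_neg hx]
    refine G5_small h hg (fun x => if x = i then 1 else 0) ?_ ⟨i, ?_⟩ ?_ {i} (by simp) ?_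
    · intro x
      by_cases h1 : x = i
      · simp [h1]
      · simp [h1]
    · simp
    · constructor
      · rw [G5_sum_one p _ i hz, hcon.1, zero_mul]
      · rw [G5_sum_one q _ i hz, hcon.2, zero_mul]
    · intro x hx
      rw [Finset.mem_singleton] at hx
      simp [hx]
  obtain ⟨r, hr⟩ := Infinite.exists_notMem_finset (Finset.univ.image fun i : Fin n => - p i / q i)
  refine ⟨fun i => p i + r * q i, q, ?_, ?_⟩
  · intro s
    rw [← hg s]
    unfold Rel
    have e : ∑ i, (p i + r * q i) * s i = ∑ i, p i * s i + r * ∑ i, q i * s i := by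
      rw [Finset.mul_sum, ← Finset.sum_add_distrib]
      exact Finset.sum_congr rfl fun i _ => by ring
    rw [e]
    constructor
    · rintro ⟨h1, h2⟩
      rw [h2] at h1
      exact ⟨by linarith, h2⟩
    · rintro ⟨h1, h2⟩
      rw [h1, h2]
      simp
  · intro i hi
    by_cases hq : q i = 0
    · simp only [hq, mul_zero, add_zero] at hi
      exact (hne i).elim (fun h1 => h1 hi) (fun h1 => h1 hq)
    · apply hr
      rw [Finset.mem_image]
      refine ⟨i, Finset.mem_univ i, ?_⟩
      rw [div_eq_iff hq]
      simp only at hi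
      linarith

private theorem G5_sorted {ι : Type} [LinearOrder ι] {x y z x' y' z' : ι} (h1 : x < y) (h2 : y < z)
    (h1' : x' < y') (h2' : y' < z') (h : ({x, y, z} : Finset ι) = {x', y', z'}) :
    x = x' ∧ y = y' ∧ z = z' := by
  have hm : ∀ w, (w = x ∨ w = y ∨ w = z) ↔ (w = x' ∨ w = y' ∨ w = z') := by
    intro w
    have := Finset.ext_iff.1 h w
    simpa using this
  have hx : x = x' := by
    apply le_antisymm
    · rcases (hm x').2 (Or.inl rfl) with h3 | h3 | h3
      · exact h3.ge
      · rw [h3]; exact h1.le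
      · rw [h3]; exact (h1.trans h2).le
    · rcases (hm x).1 (Or.inl rfl) with h3 | h3 | h3
      · exact h3.ge
      · rw [h3]; exact h1'.le
      · rw [h3]; exact (h1'.trans h2').le
  have hz : z = z' := by
    apply le_antisymm
    · rcases (hm z).1 (Or.inr (Or.inr rfl)) with h3 | h3 | h3
      · rw [h3]; exact (h1'.trans h2').le
      · rw [h3]; exact h2'.le
      · exact h3.le
    · rcases (hm z').2 (Or.inr (Or.inr rfl)) with h3 | h3 | h3
      · rw [h3]; exact (h1.trans h2).le
      · rw [h3]; exact h2.le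
      · exact h3.le
  refine ⟨hx, ?_, hz⟩
  rcases (hm y).1 (Or.inr (Or.inl rfl)) with h3 | h3 | h3
  · rw [h3, ← hx] at h1
    exact absurd h1 (lt_irrefl _)
  · exact h3
  · rw [h3, ← hz] at h2
    exact absurd h2 (lt_irrefl _)

private theorem G5_sort {ι : Type} [LinearOrder ι] {κ : Type} [DecidableEq κ] (g : κ → ι)
    (hg : Function.Injective g) (K : Finset κ) (hK : K.card = 3) :
    ∃ i j l, K = {i, j, l} ∧ g i < g j ∧ g j < g l := by
  obtain ⟨x, y, z, hxy, hxz, hyz, rfl⟩ := Finset.card_eq_three.1 hK
  have e1 : ({x, y, z} : Finset κ) = {x, z, y} := by ext w; simp; tauto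
  have e2 : ({x, y, z} : Finset κ) = {y, x, z} := by ext w; simp; tauto
  have e3 : ({x, y, z} : Finset κ) = {y, z, x} := by ext w; simp; tauto
  have e4 : ({x, y, z} : Finset κ) = {z, x, y} := by ext w; simp; tauto
  have e5 : ({x, y, z} : Finset κ) = {z, y, x} := by ext w; simp; tauto
  rcases lt_or_gt_of_ne (fun h => hxy (hg h)) with h1 | h1
  · rcases lt_or_gt_of_ne (fun h => hyz (hg h)) with h2 | h2
    · exact ⟨x, y, z, rfl, h1, h2⟩
    · rcases lt_or_gt_of_ne (fun h => hxz (hg h)) with h3 | h3
      · exact ⟨x, z, y, e1, h3, h2⟩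
      · exact ⟨z, x, y, e4, h3, h1⟩
  · rcases lt_or_gt_of_ne (fun h => hxz (hg h)) with h2 | h2
    · exact ⟨y, x, z, e2, h1, h2⟩
    · rcases lt_or_gt_of_ne (fun h => hyz (hg h)) with h3 | h3
      · exact ⟨y, z, x, e3, h3, h2⟩
      · exact ⟨z, y, x, e5, h3, h1⟩

private theorem G5_fwd {a : Fin n → E d} {b p q : Fin n → ℝ} {S : Finset (E d)} (h : Pol a b S)
    (hg : Gale a b p q) (hp : ∀ i, p i ≠ 0) {i j l : Fin n} (hij : i ≠ j) (hil : i ≠ l)
    (hjl : j ≠ l) (t1 : q i / p i ≤ q j / p j) (t2 : q j / p j ≤ q l / p l) {x y z : ℝ}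
    (hx : 0 < x) (hy : 0 < y) (hz : 0 < z) (r1 : p i * x + p j * y + p l * z = 0)
    (r2 : q i * x + q j * y + q l * z = 0) :
    ¬ (0 < p i ↔ 0 < p j) ∧ ¬ (0 < p j ↔ 0 < p l) := by
  set ti := q i / p i with hti
  set tj := q j / p j with htj
  set tl := q l / p l with htl
  have qi : q i = ti * p i := by rw [hti, div_mul_cancel₀ _ (hp i)]
  have qj : q j = tj * p j := by rw [htj, div_mul_cancel₀ _ (hp j)]
  have ql : q l = tl * p l := by rw [htl, div_mul_cancel₀ _ (hp l)]
  have hpi := hp i
  have hpj := hp j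
  have hpl := hp l
  have key : (tj - ti) * (p i * x) = (tl - tj) * (p l * z) := by
    rw [qi, qj, ql] at r2
    linear_combination tj * r1 - r2
  have nxi : p i * x ≠ 0 := mul_ne_zero hpi hx.ne'
  have nzl : p l * z ≠ 0 := mul_ne_zero hpl hz.ne'
  -- the values are different
  have hlt : ti < tj ∧ tj < tl := by
    rcases t1.lt_or_eq with h1 | h1
    · refine ⟨h1, ?_⟩
      rcases t2.lt_or_eq with h2 | h2
      · exact h2
      · exfalso
        rw [h2, sub_self, zero_mul] at key
        rcases mul_eq_zero.1 key with h3 | h3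
        · linarith
        · exact nxi h3
    · exfalso
      rw [h1, sub_self, zero_mul] at key
      have h2 : tj = tl := by
        rcases mul_eq_zero.1 key.symm with h3 | h3
        · linarith
        · exact absurd h3 nzl
      have s1 : ¬ (0 < p i ∧ p j < 0) := fun h3 =>
        G5_same h hg hp hij (by rw [← hti, ← htj, h1]) h3.1 h3.2
      have s2 : ¬ (0 < p j ∧ p i < 0) := fun h3 =>
        G5_same h hg hp hij.symm (by rw [← hti, ← htj, h1]) h3.1 h3.2
      have s3 : ¬ (0 < p j ∧ p l < 0) := fun h3 =>
        G5_same h hg hp hjl (by rw [← htl, ← htj, h2]) h3.1 h3.2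
      have s4 : ¬ (0 < p l ∧ p j < 0) := fun h3 =>
        G5_same h hg hp hjl.symm (by rw [← htl, ← htj, h2]) h3.1 h3.2
      rcases lt_or_gt_of_ne hpj with h4 | h4
      · have h5 : p i < 0 := by
          rcases lt_or_gt_of_ne hpi with h6 | h6
          · exact h6
          · exact absurd ⟨h6, h4⟩ s1
        have h7 : p l < 0 := by
          rcases lt_or_gt_of_ne hpl with h6 | h6
          · exact h6
          · exact absurd ⟨h6, h4⟩ s4
        have a1 := mul_neg_of_neg_of_pos h5 hx
        have a2 := mul_neg_of_neg_of_pos h4 hy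
        have a3 := mul_neg_of_neg_of_pos h7 hz
        linarith
      · have h5 : 0 < p i := by
          rcases lt_or_gt_of_ne hpi with h6 | h6
          · exact absurd ⟨h4, h6⟩ s2
          · exact h6
        have h7 : 0 < p l := by
          rcases lt_or_gt_of_ne hpl with h6 | h6
          · exact absurd ⟨h4, h6⟩ s3
          · exact h6
        have a1 := mul_pos h5 hx
        have a2 := mul_pos h4 hy
        have a3 := mul_pos h7 hz
        linarith
  have u1 : 0 < tj - ti := by linarith [hlt.1]
  have u2 : 0 < tl - tj := by linarith [hlt.2]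
  rcases lt_or_gt_of_ne hpi with h4 | h4
  · have a1 : p i * x < 0 := mul_neg_of_neg_of_pos h4 hx
    have a2 : (tl - tj) * (p l * z) < 0 := by
      rw [← key]
      exact mul_neg_of_pos_of_neg u1 a1
    have a3 : p l * z < 0 := by
      by_contra h5
      push Not at h5
      have := mul_nonneg u2.le h5
      linarith
    have a4 : p l < 0 := by
      by_contra h5
      push Not at h5
      have := mul_nonneg h5 hz.le
      linarith
    have a5 : 0 < p j * y := by linarith
    have a6 : 0 < p j := by
      by_contra h5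
      push Not at h5
      have := mul_nonpos_of_nonpos_of_nonneg h5 hy.le
      linarith
    exact ⟨fun h7 => by linarith [h7.2 a6], fun h7 => by linarith [h7.1 a6]⟩
  · have a1 : 0 < p i * x := mul_pos h4 hx
    have a2 : 0 < (tl - tj) * (p l * z) := by
      rw [← key]
      exact mul_pos u1 a1
    have a3 : 0 < p l * z := by
      by_contra h5
      push Not at h5
      have := mul_nonpos_of_nonneg_of_nonpos u2.le h5
      linarith
    have a4 : 0 < p l := by
      by_contra h5
      push Not at h5
      have := mul_nonpos_of_nonpos_of_nonneg h5 hz.le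
      linarith
    have a5 : p j * y < 0 := by linarith
    have a6 : p j < 0 := by
      by_contra h5
      push Not at h5
      have := mul_nonneg h5 hy.le
      linarith
    exact ⟨fun h7 => by linarith [h7.1 h4], fun h7 => by linarith [h7.2 a4]⟩

private theorem G5_bwd {a : Fin n → E d} {b p q : Fin n → ℝ} {S : Finset (E d)} (h : Pol a b S)
    (hg : Gale a b p q) (hp : ∀ i, p i ≠ 0) {i j l : Fin n} (hij : i ≠ j) (hil : i ≠ l)
    (hjl : j ≠ l) (t1 : q i / p i ≤ q j / p j) (t2 : q j / p j ≤ q l / p l)
    (s1 : ¬ (0 < p i ↔ 0 < p j)) (s2 : ¬ (0 < p j ↔ 0 < p l)) :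
    ∃ x y z : ℝ, 0 < x ∧ 0 < y ∧ 0 < z ∧ p i * x + p j * y + p l * z = 0 ∧
      q i * x + q j * y + q l * z = 0 := by
  have hpi := hp i
  have hpj := hp j
  have hpl := hp l
  have key : ∀ {i j : Fin n}, i ≠ j → ¬ (0 < p i ↔ 0 < p j) → q i / p i ≠ q j / p j := by
    intro i j hij hs ht
    rcases lt_or_gt_of_ne (hp i) with h1 | h1
    · rcases lt_or_gt_of_ne (hp j) with h2 | h2
      · exact hs ⟨fun h3 => by linarith, fun h3 => by linarith⟩
      · exact G5_same h hg hp hij.symm ht.symm h2 h1
    · rcases lt_or_gt_of_ne (hp j) with h2 | h2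
      · exact G5_same h hg hp hij ht h1 h2
      · exact hs ⟨fun _ => h2, fun _ => h1⟩
  have u1 : q i / p i < q j / p j := lt_of_le_of_ne t1 (key hij s1)
  have u2 : q j / p j < q l / p l := lt_of_le_of_ne t2 (key hjl s2)
  set ti := q i / p i with hti
  set tj := q j / p j with htj
  set tl := q l / p l with htl
  have qi : q i = ti * p i := by rw [hti, div_mul_cancel₀ _ (hp i)]
  have qj : q j = tj * p j := by rw [htj, div_mul_cancel₀ _ (hp j)]
  have ql : q l = tl * p l := by rw [htl, div_mul_cancel₀ _ (hp l)]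
  have v1 : 0 < tj - ti := by linarith
  have v2 : 0 < tl - tj := by linarith
  have v3 : 0 < tl - ti := by linarith
  rcases lt_or_gt_of_ne hpi with h1 | h1
  · have h2 : 0 < p j := by
      rcases lt_or_gt_of_ne hpj with h3 | h3
      · exact absurd ⟨fun h4 => by linarith, fun h4 => by linarith⟩ s1
      · exact h3
    have h3 : p l < 0 := by
      rcases lt_or_gt_of_ne hpl with h4 | h4
      · exact h4
      · exact absurd ⟨fun _ => h4, fun _ => h2⟩ s2
    refine ⟨(tl - tj) / (- p i), (tl - ti) / p j, (tj - ti) / (- p l), div_pos v2 (by linarith),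
      div_pos v3 h2, div_pos v1 (by linarith), ?_, ?_⟩
    · have e1 : p i * ((tl - tj) / (- p i)) = -(tl - tj) := by field_simp
      have e2 : p j * ((tl - ti) / p j) = tl - ti := by field_simp
      have e3 : p l * ((tj - ti) / (- p l)) = -(tj - ti) := by field_simp
      rw [e1, e2, e3]
      ring
    · have e1 : q i * ((tl - tj) / (- p i)) = -(tl - tj) * ti := by rw [qi]; field_simp
      have e2 : q j * ((tl - ti) / p j) = (tl - ti) * tj := by rw [qj]; field_simp
      have e3 : q l * ((tj - ti) / (- p l)) = -(tj - ti) * tl := by rw [ql]; field_simp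
      rw [e1, e2, e3]
      ring
  · have h2 : p j < 0 := by
      rcases lt_or_gt_of_ne hpj with h3 | h3
      · exact h3
      · exact absurd ⟨fun _ => h3, fun _ => h1⟩ s1
    have h3 : 0 < p l := by
      rcases lt_or_gt_of_ne hpl with h4 | h4
      · exact absurd ⟨fun h4 => by linarith, fun h4 => by linarith⟩ s2
      · exact h4
    refine ⟨(tl - tj) / p i, (tl - ti) / (- p j), (tj - ti) / p l, div_pos v2 h1,
      div_pos v3 (by linarith), div_pos v1 h3, ?_, ?_⟩
    · have e1 : p i * ((tl - tj) / p i) = tl - tj := by field_simp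
      have e2 : p j * ((tl - ti) / (- p j)) = -(tl - ti) := by field_simp
      have e3 : p l * ((tj - ti) / p l) = tj - ti := by field_simp
      rw [e1, e2, e3]
      ring
    · have e1 : q i * ((tl - tj) / p i) = (tl - tj) * ti := by rw [qi]; field_simp
      have e2 : q j * ((tl - ti) / (- p j)) = -(tl - ti) * tj := by rw [qj]; field_simp
      have e3 : q l * ((tj - ti) / p l) = (tj - ti) * tl := by rw [ql]; field_simp
      rw [e1, e2, e3]
      ring

theorem pos_alt {a : Fin n → E d} {b p q : Fin n → ℝ} {S : Finset (E d)} (h : Pol a b S) (hg : Gale a b p q)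
    (hp : ∀ i, p i ≠ 0) (K : Finset (Fin n)) (hK : K.card = 3) : Pos p q K ↔ Alt (sg p) (K.image (gk p q)) := by
  obtain ⟨i, j, l, rfl, gij, gjl⟩ := G5_sort (gk p q) (G5_inj p q) K hK
  have hij : i ≠ j := fun h1 => by rw [h1] at gij; exact lt_irrefl _ gij
  have hjl : j ≠ l := fun h1 => by rw [h1] at gjl; exact lt_irrefl _ gjl
  have hil : i ≠ l := fun h1 => by
    rw [h1] at gij
    exact lt_irrefl _ (gij.trans gjl)
  have t1 := G5_le gij
  have t2 := G5_le gjl
  have himg : ({i, j, l} : Finset (Fin n)).image (gk p q) = {gk p q i, gk p q j, gk p q l} := by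
    rw [Finset.image_insert, Finset.image_insert, Finset.image_singleton]
  rw [himg]
  constructor
  · rintro ⟨s, hpos, hzero, r1, r2⟩
    rw [G5_sum_three p s i j l hij hil hjl hzero] at r1
    rw [G5_sum_three q s i j l hij hil hjl hzero] at r2
    have h1 := G5_fwd h hg hp hij hil hjl t1 t2 (hpos i (by simp)) (hpos j (by simp))
      (hpos l (by simp)) r1 r2
    refine ⟨_, _, _, gij, gjl, ?_, ?_, rfl⟩
    · rw [G5_sg, G5_sg]
      intro h2
      exact h1.1 (decide_eq_decide.1 h2)
    · rw [G5_sg, G5_sg]
      intro h2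
      exact h1.2 (decide_eq_decide.1 h2)
  · rintro ⟨i', j', l', c1, c2, c3, c4, c5⟩
    obtain ⟨rfl, rfl, rfl⟩ := G5_sorted gij gjl c1 c2 c5
    rw [G5_sg, G5_sg] at c3 c4
    obtain ⟨x, y, z, hx, hy, hz, r1, r2⟩ := G5_bwd h hg hp hij hil hjl t1 t2
      (fun h1 => c3 (decide_eq_decide.2 h1)) (fun h1 => c4 (decide_eq_decide.2 h1))
    have hzero : ∀ w, w ∉ ({i, j, l} : Finset (Fin n)) →
        (if w = i then x else if w = j then y else if w = l then z else 0) = 0 := by
      intro w hw
      simp only [Finset.mem_insert, Finset.mem_singleton, not_or] at hw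
      rw [if_neg hw.1, if_neg hw.2.1, if_neg hw.2.2]
    refine ⟨fun w => if w = i then x else if w = j then y else if w = l then z else 0, ?_, hzero,
      ?_, ?_⟩
    · intro w hw
      simp only [Finset.mem_insert, Finset.mem_singleton] at hw
      rcases hw with rfl | rfl | rfl
      · simpa using hx
      · simpa [hij.symm] using hy
      · simpa [hil.symm, hjl.symm] using hz
    · rw [G5_sum_three p _ i j l hij hil hjl hzero]
      simpa [hij.symm, hil.symm, hjl.symm] using r1
    · rw [G5_sum_three q _ i j l hij hil hjl hzero]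
      simpa [hij.symm, hil.symm, hjl.symm] using r2

end Pool.Agent.LibFF40
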