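import Pool.Agent.LibFF40.Defs

/-
PLAN (G6). v :: M lists all vertices of a simple graph on a finite type, without repetitions, at least three, consecutive ones (cyclically) adjacent: SimpleGraph.Walk.ofSupport of the list v :: (M ++ [v])
(List.IsChain G.Adj) is a closed walk; IsCycle and IsHamiltonianCycle (isHamiltonianCycle_iff_isCycle_and_support_count_tail_eq_one or via a Hamiltonian path: the walk ofSupport (M ++ [v]) is a path from head M to v
(support nodup) and cons the edge v - head M: SimpleGraph.Walk.cons_isCycle_iff: the edge is not in the path because the path has length >= 2 and ... ). Graph is in SimpleGraph.IsHamiltonian.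
-/

set_option autoImplicit false

noncomputable section

namespace Pool.Agent.LibFF40

open Finset

private theorem G6_walk {V : Type} (G : SimpleGraph V) (l : List V) (y : V) :
    ∀ x : V, (x :: (l ++ [y])).IsChain G.Adj → ∃ p : G.Walk x y, p.support = x :: (l ++ [y]) := by
  induction l with
  | nil =>
    intro x h
    have h1 : G.Adj x y := by
      rw [List.nil_append, List.isChain_cons_cons] at h
      exact h.1
    exact ⟨SimpleGraph.Walk.cons h1 SimpleGraph.Walk.nil, rfl⟩
  | cons a l ih =>
    intro x h
    rw [List.cons_append, List.isChain_cons_cons] at h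
    obtain ⟨p, hp⟩ := ih a h.2
    refine ⟨SimpleGraph.Walk.cons h.1 p, ?_⟩
    rw [SimpleGraph.Walk.support_cons, hp]
    rfl

theorem ham_of_list {V : Type} [Fintype V] [DecidableEq V] (G : SimpleGraph V) (v : V) (M : List V)
    (h : (v :: M).Nodup) (hc : (v :: (M ++ [v])).IsChain G.Adj) (hall : ∀ x, x ∈ v :: M)
    (h3 : 3 ≤ (v :: M).length) : G.IsHamiltonian := by
  intro _
  rcases M with _ | ⟨a, _ | ⟨b, M⟩⟩
  · simp at h3
  · simp at h3
  rw [List.cons_append, List.isChain_cons_cons] at hc
  obtain ⟨h1, hc⟩ := hc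
  rw [List.cons_append, List.isChain_cons_cons] at hc
  obtain ⟨h2, hc⟩ := hc
  obtain ⟨p', hp'⟩ := G6_walk G M v b hc
  have hsup : (SimpleGraph.Walk.cons h2 p').support = a :: b :: (M ++ [v]) := by
    rw [SimpleGraph.Walk.support_cons, hp']
  have hperm : (v :: a :: b :: M).Perm (a :: b :: (M ++ [v])) := by
    have h4 : (v :: (a :: b :: M)).Perm ((a :: b :: M) ++ [v]) := (List.perm_append_singleton v _).symm
    exact h4
  have hnd : (a :: b :: (M ++ [v])).Nodup := hperm.nodup_iff.1 h
  have hpath : (SimpleGraph.Walk.cons h2 p').IsPath := by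
    rw [SimpleGraph.Walk.isPath_def, hsup]
    exact hnd
  have hnotin : a ∉ p'.support := by
    rw [hp']
    exact (List.nodup_cons.1 hnd).1
  have hvb : v ≠ b := by
    rintro rfl
    have h5 := (List.nodup_cons.1 h).1
    exact h5 (by simp)
  have hcyc : (SimpleGraph.Walk.cons h1 (SimpleGraph.Walk.cons h2 p')).IsCycle := by
    rw [SimpleGraph.Walk.cons_isCycle_iff]
    refine ⟨hpath, ?_⟩
    rw [SimpleGraph.Walk.edges_cons, List.mem_cons]
    rintro (h6 | h6)
    · rw [Sym2.eq_iff] at h6
      rcases h6 with ⟨h7, h8⟩ | ⟨h7, h8⟩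
      · exact h2.ne h8
      · exact hvb h7
    · exact hnotin (p'.snd_mem_support_of_mem_edges h6)
  refine ⟨v, SimpleGraph.Walk.cons h1 (SimpleGraph.Walk.cons h2 p'), ?_⟩
  rw [SimpleGraph.Walk.isHamiltonianCycle_iff_isCycle_and_support_count_tail_eq_one]
  refine ⟨hcyc, fun x => ?_⟩
  rw [SimpleGraph.Walk.support_cons, List.tail_cons, hsup]
  exact List.count_eq_one_of_mem hnd (hperm.mem_iff.1 (hall x))

end Pool.Agent.LibFF40
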