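import Pool.Agent.LibFF40.W2

/-
PLAN (W5). Strong induction on the card of A. Take v0 in TT w A. (1) If A has a pair a, a' with Twin w A a a': TT w (A.erase a') is not empty (v0 or insert a (v0.erase a')), so it is closed by induction; if one
of its triples contains a: CL.start, wedge_words; the list kappa v :: (N ++ [v]) is closed (v and kappa v share v.erase a, two letters). If none of its triples contains a: TT w A = TT w (A.erase a').
(2) No twins: by twin_next neighbours in A have different signs, by twin_ends the first and the last letter have equal signs. Let n = card A >= 3, g : ℕ → ι with g strictly increasing on range n and image A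
(A.orderEmbOfFin / orderIsoOfFin). w (g i) /= w (g (i+1)), so w (g i) = w (g 0) xor par i, n is odd, n = 2m+1, and TT w A = image of TT par (range n) under (image g). Map the closed list of alt_base (List.map (image g);
image g is injective on subsets of range n and keeps the cardinality of intersections).
-/

set_option autoImplicit false

noncomputable section

namespace Pool.Agent.LibFF40

open Finset

variable {ι : Type} [LinearOrder ι]

private theorem W5_card {w : ι → Bool} {v : Finset ι} (h : Alt w v) : v.card = 3 := by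
  obtain ⟨i, j, l, hij, hjl, -, -, rfl⟩ := h
  exact Finset.card_eq_three.2 ⟨i, j, l, hij.ne, (hij.trans hjl).ne, hjl.ne, rfl⟩

private theorem W5_twin {w : ι → Bool} {A : Finset ι} (hA : (TT w A).Nonempty) {a a' : ι} (h : Twin w A a a')
    (ih : (TT w (A.erase a')).Nonempty → Closed (TT w (A.erase a'))) : Closed (TT w A) := by
  obtain ⟨ha, ha', hne, htw⟩ := h
  have h1 : ∀ v ∈ TT w A, a' ∈ v → insert a (v.erase a') ∈ TT w (A.erase a') := by
    rintro v ⟨hv, hv'⟩ hav
    refine ⟨?_, ((htw v hv hav).1 hv').2⟩
    intro x hx
    rw [Finset.mem_insert, Finset.mem_erase] at hx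
    rw [Finset.mem_erase]
    rcases hx with rfl | hx
    · exact ⟨hne, ha⟩
    · exact ⟨hx.1, hv hx.2⟩
  have h2 : ∀ v ∈ TT w A, a' ∉ v → v ∈ TT w (A.erase a') := by
    rintro v ⟨hv, hv'⟩ hav
    exact ⟨fun x hx => Finset.mem_erase.2 ⟨fun h => hav (h ▸ hx), hv hx⟩, hv'⟩
  have h3 : ∀ v ∈ TT w (A.erase a'), v ∈ TT w A := by
    rintro v ⟨hv, hv'⟩
    exact ⟨hv.trans (Finset.erase_subset _ _), hv'⟩
  have hne' : (TT w (A.erase a')).Nonempty := by
    obtain ⟨v, hv⟩ := hA
    by_cases hav : a' ∈ v
    · exact ⟨_, h1 v hv hav⟩
    · exact ⟨_, h2 v hv hav⟩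
  obtain ⟨v, M, hcl, hmem⟩ := ih hne'
  by_cases hex : ∃ x ∈ TT w (A.erase a'), a ∈ x
  · obtain ⟨x, hx, hax⟩ := hex
    obtain ⟨N, hN, hNm⟩ := hcl.start ((hmem x).2 hx)
    obtain ⟨N', hn1, hn2, hn3⟩ := wedge_words w A a a' ⟨ha, ha', hne, htw⟩ x N hN
      (fun y => (hNm y).trans (hmem y)) hax
    refine ⟨insert a' (x.erase a), N' ++ [x], ⟨hn1, ?_⟩, hn3⟩
    have e : insert a' (x.erase a) :: (N' ++ [x] ++ [insert a' (x.erase a)]) =
        (insert a' (x.erase a) :: N') ++ x :: [insert a' (x.erase a)] := by simp
    rw [e, List.isChain_split]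
    refine ⟨by simpa using hn2, ?_⟩
    rw [List.isChain_cons_cons]
    refine ⟨?_, List.isChain_singleton _⟩
    have hc := W5_card hx.2
    have h4 : (x.erase a).card = 2 := by
      rw [Finset.card_erase_of_mem hax, hc]
    change 2 ≤ (x ∩ insert a' (x.erase a)).card
    rw [← h4]
    refine Finset.card_le_card ?_
    intro y hy
    rw [Finset.mem_inter]
    exact ⟨Finset.mem_of_mem_erase hy, Finset.mem_insert_of_mem hy⟩
  · refine ⟨v, M, hcl, fun x => ?_⟩
    rw [hmem x]
    refine ⟨h3 x, fun hx => ?_⟩
    by_cases hav : a' ∈ x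
    · exact absurd ⟨_, h1 x hx hav, Finset.mem_insert_self _ _⟩ hex
    · exact h2 x hx hav

private theorem W5_par (i : ℕ) : par (i + 1) = !par i := by
  unfold par
  rcases Nat.mod_two_eq_zero_or_one i with h | h
  · have h1 : (i + 1) % 2 = 1 := by omega
    rw [h, h1]
    rfl
  · have h1 : (i + 1) % 2 = 0 := by omega
    rw [h, h1]
    rfl

private theorem W5_map {w : ι → Bool} {A : Finset ι} {g : ℕ → ι} {n : ℕ}
    (hg : ∀ i j, i < j → j < n → g i < g j) (hgA : ∀ i < n, g i ∈ A) (hAg : ∀ x ∈ A, ∃ i < n, g i = x)
    (hw : ∀ i < n, w (g i) = xor (w (g 0)) (par i)) (h : Closed (TT par (range n))) : Closed (TT w A) := by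
  obtain ⟨v, M, ⟨h1, h2⟩, hmem⟩ := h
  have hinj : ∀ i < n, ∀ j < n, g i = g j → i = j := by
    intro i hi j hj hij
    rcases lt_trichotomy i j with h | h | h
    · exact absurd hij (hg i j h hj).ne
    · exact h
    · exact absurd hij.symm (hg j i h hi).ne
  have hlt : ∀ i < n, ∀ j < n, g i < g j → i < j := by
    intro i hi j hj hij
    rcases lt_trichotomy i j with h | h | h
    · exact h
    · rw [h] at hij
      exact absurd hij (lt_irrefl _)
    · exact absurd hij (hg j i h hi).not_gt
  have hinjOn : Set.InjOn g (range n : Finset ℕ) := by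
    intro i hi j hj hij
    rw [Finset.mem_coe, Finset.mem_range] at hi hj
    exact hinj i hi j hj hij
  have hT : ∀ x ∈ v :: M, x ⊆ range n := fun x hx => ((hmem x).1 hx).1
  have hcard : ∀ a b : Finset ℕ, a ⊆ range n → b ⊆ range n → R2 a b → R2 (a.image g) (b.image g) := by
    intro a b ha hb hab
    change 2 ≤ (a.image g ∩ b.image g).card
    have h3 : (a ∩ b).image g ⊆ a.image g ∩ b.image g := by
      intro x hx
      rw [Finset.mem_image] at hx
      obtain ⟨y, hy, rfl⟩ := hx
      rw [Finset.mem_inter] at hy ⊢
      exact ⟨Finset.mem_image_of_mem g hy.1, Finset.mem_image_of_mem g hy.2⟩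
    have h4 : ((a ∩ b).image g).card = (a ∩ b).card := by
      refine Finset.card_image_of_injOn ?_
      refine hinjOn.mono ?_
      intro x hx
      rw [Finset.mem_coe] at hx ⊢
      exact ha (Finset.mem_of_mem_inter_left hx)
    have h5 : 2 ≤ (a ∩ b).card := hab
    rw [← h4] at h5
    exact h5.trans (Finset.card_le_card h3)
  have hxor : ∀ i < n, ∀ j < n, w (g i) ≠ w (g j) ↔ par i ≠ par j := by
    intro i hi j hj
    rw [hw i hi, hw j hj]
    cases w (g 0) <;> cases par i <;> cases par j <;> simp
  refine ⟨v.image g, M.map (fun a => a.image g), ⟨?_, ?_⟩, ?_⟩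
  · have e : v.image g :: M.map (fun a => a.image g) = (v :: M).map (fun a => a.image g) := rfl
    rw [e]
    refine List.Nodup.map_on ?_ h1
    intro a ha b hb hab
    have ha' := hT a ha
    have hb' := hT b hb
    have key : ∀ a b : Finset ℕ, a ⊆ range n → b ⊆ range n → a.image g = b.image g → a ⊆ b := by
      intro a b ha hb hab i hi
      have h6 : g i ∈ b.image g := by
        rw [← hab]
        exact Finset.mem_image_of_mem g hi
      rw [Finset.mem_image] at h6
      obtain ⟨j, hj, hji⟩ := h6
      have h7 := hinj j (Finset.mem_range.1 (hb hj)) i (Finset.mem_range.1 (ha hi)) hji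
      rw [← h7]
      exact hj
    exact Finset.Subset.antisymm (key a b ha' hb' hab) (key b a hb' ha' hab.symm)
  · have e : v.image g :: (M.map (fun a => a.image g) ++ [v.image g]) =
        (v :: (M ++ [v])).map (fun a => a.image g) := by simp
    rw [e, List.isChain_map]
    refine h2.imp_of_mem_imp ?_
    intro a b ha hb hab
    have hm : ∀ x ∈ v :: (M ++ [v]), x ⊆ range n := by
      intro x hx
      apply hT
      simp only [List.mem_cons, List.mem_append, List.not_mem_nil, or_false] at hx ⊢
      tauto
    exact hcard a b (hm a ha) (hm b hb) hab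
  · intro x
    have e : v.image g :: M.map (fun a => a.image g) = (v :: M).map (fun a => a.image g) := rfl
    rw [e, List.mem_map]
    constructor
    · rintro ⟨u, hu, rfl⟩
      obtain ⟨hu1, i, j, l, hij, hjl, h3, h4, rfl⟩ := (hmem u).1 hu
      have hi : i < n := Finset.mem_range.1 (hu1 (by simp))
      have hj : j < n := Finset.mem_range.1 (hu1 (by simp))
      have hl : l < n := Finset.mem_range.1 (hu1 (by simp))
      refine ⟨?_, g i, g j, g l, hg i j hij hj, hg j l hjl hl, (hxor i hi j hj).2 h3, (hxor j hj l hl).2 h4, ?_⟩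
      · intro y hy
        rw [Finset.mem_image] at hy
        obtain ⟨k, hk, rfl⟩ := hy
        exact hgA k (Finset.mem_range.1 (hu1 hk))
      · simp only [Finset.image_insert, Finset.image_singleton]
    · rintro ⟨hxA, a, b, c, hab, hbc, h3, h4, rfl⟩
      obtain ⟨i, hi, rfl⟩ := hAg a (hxA (by simp))
      obtain ⟨j, hj, rfl⟩ := hAg b (hxA (by simp))
      obtain ⟨l, hl, rfl⟩ := hAg c (hxA (by simp))
      refine ⟨{i, j, l}, (hmem _).2 ⟨?_, i, j, l, hlt i hi j hj hab, hlt j hj l hl hbc, (hxor i hi j hj).1 h3,
        (hxor j hj l hl).1 h4, rfl⟩, ?_⟩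
      · intro y hy
        simp only [Finset.mem_insert, Finset.mem_singleton] at hy
        rw [Finset.mem_range]
        rcases hy with rfl | rfl | rfl <;> assumption
      · simp only [Finset.image_insert, Finset.image_singleton]

theorem words (w : ι → Bool) (A : Finset ι) (hA : (TT w A).Nonempty) : Closed (TT w A) := by
  induction hk : A.card using Nat.strong_induction_on generalizing A with
  | _ k ih =>
    by_cases htw : ∃ a a', Twin w A a a'
    · obtain ⟨a, a', h⟩ := htw
      refine W5_twin hA h fun hne => ?_
      refine ih (A.erase a').card ?_ (A.erase a') hne rfl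
      rw [← hk]
      exact Finset.card_erase_lt_of_mem h.2.1
    · push Not at htw
      obtain ⟨v0, hv0⟩ := hA
      have h3 : 3 ≤ k := by
        rw [← W5_card hv0.2, ← hk]
        exact Finset.card_le_card hv0.1
      let g : ℕ → ι := fun i => if h : i < k then A.orderEmbOfFin hk ⟨i, h⟩ else A.orderEmbOfFin hk ⟨0, by omega⟩
      have hgd : ∀ i (h : i < k), g i = A.orderEmbOfFin hk ⟨i, h⟩ := fun i h => dif_pos h
      have hg : ∀ i j, i < j → j < k → g i < g j := by
        intro i j hij hj
        rw [hgd i (hij.trans hj), hgd j hj]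
        exact (A.orderEmbOfFin hk).strictMono hij
      have hgA : ∀ i < k, g i ∈ A := by
        intro i hi
        rw [hgd i hi]
        exact Finset.orderEmbOfFin_mem A hk _
      have hAg : ∀ x ∈ A, ∃ i < k, g i = x := by
        intro x hx
        have h4 : x ∈ Set.range (A.orderEmbOfFin hk) := by
          rw [Finset.range_orderEmbOfFin]
          exact hx
        obtain ⟨i, hi⟩ := h4
        exact ⟨i.1, i.2, by rw [hgd i.1 i.2]; exact hi⟩
      have hle : ∀ i j, i ≤ j → j < k → g i ≤ g j := by
        intro i j hij hj
        rcases hij.eq_or_lt with rfl | h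
        · exact le_rfl
        · exact (hg i j h hj).le
      have hnext : ∀ i, i + 1 < k → w (g i) ≠ w (g (i + 1)) := by
        intro i hi he
        refine htw (g i) (g (i + 1)) (twin_next w A _ _ (hgA i (by omega)) (hgA _ hi) (hg i _ (by omega) hi) ?_ he)
        rintro c hc ⟨h5, h6⟩
        obtain ⟨l, hl, rfl⟩ := hAg c hc
        rcases Nat.lt_or_ge i l with h7 | h7
        · exact absurd h6 (hle (i + 1) l h7 hl).not_gt
        · exact absurd h5 (hle l i h7 (by omega)).not_gt
      have hends : w (g 0) = w (g (k - 1)) := by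
        by_contra he
        refine htw (g 0) (g (k - 1)) (twin_ends w A _ _ (hgA 0 (by omega)) (hgA _ (by omega))
          (hg 0 _ (by omega) (by omega)) ?_ ?_ he)
        · intro c hc
          obtain ⟨l, hl, rfl⟩ := hAg c hc
          exact hle 0 l (Nat.zero_le _) hl
        · intro c hc
          obtain ⟨l, hl, rfl⟩ := hAg c hc
          exact hle l (k - 1) (by omega) (by omega)
      have hw : ∀ i < k, w (g i) = xor (w (g 0)) (par i) := by
        intro i
        induction i with
        | zero =>
          intro _
          have h8 : par 0 = false := rfl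
          rw [h8, Bool.xor_false]
        | succ i ih2 =>
          intro hi
          have h9 := hnext i hi
          have h10 := ih2 (by omega)
          rw [W5_par]
          rw [h10] at h9
          revert h9
          cases w (g (i + 1)) <;> cases w (g 0) <;> cases par i <;> simp
      have hodd : (k - 1) % 2 = 0 := by
        have h11 := hw (k - 1) (by omega)
        rw [← hends] at h11
        have h12 : par (k - 1) = false := by
          revert h11
          cases w (g 0) <;> cases par (k - 1) <;> simp
        unfold par at h12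
        rw [decide_eq_false_iff_not] at h12
        omega
      have hkm : k = 2 * ((k - 1) / 2) + 1 := by omega
      refine W5_map hg hgA hAg hw ?_
      rw [hkm]
      exact alt_base ((k - 1) / 2) (by omega)

end Pool.Agent.LibFF40
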