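import Pool.Agent.LibFF40.W3
import Pool.Agent.LibFF40.W5
import Pool.Agent.LibFF40.G3
import Pool.Agent.LibFF40.G4
import Pool.Agent.LibFF40.G5
import Pool.Agent.LibFF40.G6

/-! # Main: the graph of a simple `d`-polytope with at most `d + 3` facets has a Hamiltonian cycle -/

set_option autoImplicit false

noncomputable section

namespace Pool.Agent.LibFF40

open Finset

private theorem Main_isChain_and {α : Type} {R Q : α → α → Prop} {l : List α} (h : l.IsChain R) (h' : l.IsChain Q) :
    l.IsChain (fun x y => R x y ∧ Q x y) := by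
  induction l with
  | nil => simp
  | cons x l ih =>
    rw [List.isChain_cons] at h h' ⊢
    exact ⟨fun y hy => ⟨h.1 y hy, h'.1 y hy⟩, ih h.2 h'.2⟩

private theorem Main_ne {α : Type} {v : α} {M : List α} (h : (v :: M).Nodup) (hM : M ≠ []) :
    (v :: (M ++ [v])).IsChain (fun x y => x ≠ y) := by
  rw [← List.cons_append, List.isChain_append]
  refine ⟨List.Pairwise.isChain h, by simp, ?_⟩
  intro x hx y hy
  have hy' : v = y := by simpa using hy
  rw [← hy']
  intro hxv
  rw [hxv] at hx
  have h1 : v ∉ M := (List.nodup_cons.1 h).1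
  apply h1
  rw [List.getLast?_cons] at hx
  obtain ⟨N, z, rfl⟩ : ∃ N z, M = N ++ [z] := by
    rcases List.eq_nil_or_concat M with h0 | ⟨N, z, h0⟩
    · exact absurd h0 hM
    · exact ⟨N, z, by simpa using h0⟩
  simp at hx
  simp [← hx]

private theorem Main_card {ι : Type} [LinearOrder ι] {w : ι → Bool} {v : Finset ι} (h : Alt w v) : v.card = 3 := by
  obtain ⟨i, j, l, h1, h2, -, -, rfl⟩ := h
  rw [Finset.card_eq_three]
  exact ⟨i, j, l, h1.ne, (h1.trans h2).ne, h2.ne, rfl⟩

theorem ham {d n : ℕ} (hd : 2 ≤ d) {a : Fin n → E d} {b : Fin n → ℝ} {S : Finset (E d)} (h : Pol a b S) :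
    (gr S).IsHamiltonian := by
  classical
  obtain ⟨p, q, hg, hp⟩ := generic h
  have hinj : Function.Injective (gk p q) := by
    intro i j hij
    have := congrArg (fun x => (ofLex x).2) hij
    simpa [gk] using this
  set A : Finset (ℝ ×ₗ Fin n) := univ.image (gk p q) with hA
  have hAcard : A.card = n := by
    rw [hA, Finset.card_image_of_injective _ hinj, Finset.card_univ, Fintype.card_fin]
  have hn : 5 ≤ A.card := by
    have := h.dim
    omega
  set w : ℝ ×ₗ Fin n → Bool := sg p with hw
  set φ : S → Finset (ℝ ×ₗ Fin n) := fun v => (sp a b (v : E d)).image (gk p q) with hφ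
  have hφinj : Function.Injective φ := by
    intro x y hxy
    have h1 : sp a b (x : E d) = sp a b (y : E d) := Finset.image_injective hinj hxy
    exact Subtype.ext (sp_inj h hg x.2 y.2 h1)
  have hφT : ∀ v : S, φ v ∈ TT w A := by
    intro v
    refine ⟨Finset.image_subset_image (Finset.subset_univ _), ?_⟩
    exact (pos_alt h hg hp _ (h.three _ v.2)).1 ((pos_iff h hg _ (h.three _ v.2)).2 ⟨_, v.2, rfl⟩)
  have hsurj : ∀ x ∈ TT w A, ∃ v : S, φ v = x := by
    intro x hx
    obtain ⟨hx1, hx2⟩ := hx
    obtain ⟨K, -, hK⟩ := Finset.subset_image_iff.1 hx1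
    have hK3 : K.card = 3 := by
      rw [← Main_card hx2, ← hK, Finset.card_image_of_injective _ hinj]
    have hpos : Pos p q K := (pos_alt h hg hp K hK3).2 (by rw [hK]; exact hx2)
    obtain ⟨v, hv, hvK⟩ := (pos_iff h hg K hK3).1 hpos
    refine ⟨⟨v, hv⟩, ?_⟩
    rw [hφ]
    simp only
    rw [hvK, hK]
  obtain ⟨s0, hs0⟩ := h.ne
  have hne : (TT w A).Nonempty := ⟨_, hφT ⟨s0, hs0⟩⟩
  obtain ⟨v0, M, hCL, hT⟩ := words w A hne
  have h3 : 3 ≤ (v0 :: M).length := len_three w A hn (v0 :: M) hCL.1 (by simp) hT
  -- the inverse map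
  have hex : ∀ x : Finset (ℝ ×ₗ Fin n), ∃ v : S, x ∈ TT w A → φ v = x := by
    intro x
    by_cases hx : x ∈ TT w A
    · obtain ⟨v, hv⟩ := hsurj x hx
      exact ⟨v, fun _ => hv⟩
    · exact ⟨⟨s0, hs0⟩, fun h' => absurd h' hx⟩
  choose g hgφ using hex
  have hadj : ∀ x y, x ∈ TT w A → y ∈ TT w A → R2 x y → x ≠ y → (gr S).Adj (g x) (g y) := by
    intro x y hx hy hxy hne'
    have e1 := hgφ x hx
    have e2 := hgφ y hy
    have hgne : g x ≠ g y := by
      intro h'
      apply hne'
      rw [← e1, ← e2, h']
    rw [gr, SimpleGraph.fromRel_adj]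
    refine ⟨hgne, Or.inl ?_⟩
    apply edge h (g x).2 (g y).2
    intro z hz hzQ
    have c1 := Main_card hx.2
    have c2 := Main_card hy.2
    have c3 : (x ∩ y).card ≤ 3 := by
      rw [← c1]
      exact Finset.card_le_card Finset.inter_subset_left
    have c4 : (x ∩ y).card ≠ 3 := by
      intro h'
      have k1 : x ∩ y = x := Finset.eq_of_subset_of_card_le Finset.inter_subset_left (by rw [h', c1])
      have k2 : x ∩ y = y := Finset.eq_of_subset_of_card_le Finset.inter_subset_right (by rw [h', c2])
      exact hne' (by rw [← k1]; exact k2)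
    have c5 : (x ∪ y).card = 4 := by
      have := Finset.card_union_add_card_inter x y
      unfold R2 at hxy
      omega
    have hzx : φ ⟨z, hz⟩ ⊆ x ∪ y := by
      rw [← e1, ← e2, hφ]
      simp only
      rw [← Finset.image_union]
      exact Finset.image_subset_image hzQ
    rcases four_two w (x ∪ y) c5 x y (φ ⟨z, hz⟩) Finset.subset_union_left Finset.subset_union_right hzx hx.2 hy.2
      (hφT ⟨z, hz⟩).2 hne' with h' | h'
    · left
      rw [← e1] at h'
      exact congrArg Subtype.val (hφinj h')
    · right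
      rw [← e2] at h'
      exact congrArg Subtype.val (hφinj h')
  have hM : M ≠ [] := by
    rintro rfl
    simp at h3
  have hch : (v0 :: (M ++ [v0])).IsChain (fun x y => (gr S).Adj (g x) (g y)) := by
    have h1 := Main_isChain_and hCL.2 (Main_ne hCL.1 hM)
    refine List.IsChain.imp_of_mem_imp ?_ h1
    intro x y hx hy hxy
    have hmem : ∀ z, z ∈ v0 :: (M ++ [v0]) → z ∈ TT w A := by
      intro z hz
      apply (hT z).1
      simp only [List.mem_cons, List.mem_append, List.not_mem_nil, or_false] at hz ⊢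
      tauto
    exact hadj x y (hmem x hx) (hmem y hy) hxy.1 hxy.2
  have hginj : ∀ x, x ∈ v0 :: M → ∀ y, y ∈ v0 :: M → g x = g y → x = y := by
    intro x hx y hy hxy
    rw [← hgφ x ((hT x).1 hx), ← hgφ y ((hT y).1 hy), hxy]
  apply ham_of_list (gr S) (g v0) (M.map g)
  · rw [← List.map_cons]
    exact List.Nodup.map_on hginj hCL.1
  · have : (g v0 :: (M.map g ++ [g v0])) = (v0 :: (M ++ [v0])).map g := by simp
    rw [this, List.isChain_map]
    exact hch
  · intro z
    rw [← List.map_cons, List.mem_map]
    refine ⟨φ z, (hT _).2 (hφT z), ?_⟩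
    exact hφinj (hgφ _ (hφT z))
  · simpa using h3

theorem pol_of {d n : ℕ} (hn : n ≤ d + 3) {a : Fin n → E d} {b : Fin n → ℝ} {S : Finset (E d)}
    (h1 : (interior (convexHull ℝ (S : Set (E d)))).Nonempty)
    (h2 : ∀ s ∈ S, s ∈ Set.extremePoints ℝ (convexHull ℝ (S : Set (E d))))
    (h3 : convexHull ℝ (S : Set (E d)) = {x | ∀ i, inner ℝ (a i) x ≤ b i})
    (h4 : ∀ s ∈ S, {i | inner ℝ (a i) s = b i}.ncard = d) :
    ∃ (a' : Fin (d + 3) → E d) (b' : Fin (d + 3) → ℝ), Pol a' b' S := by
  classical
  refine ⟨fun i => if h : (i : ℕ) < n then a ⟨i, h⟩ else 0, fun i => if h : (i : ℕ) < n then b ⟨i, h⟩ else 1,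
    ⟨?_, h2, ?_, ?_, rfl⟩⟩
  · rw [h3]
    ext x
    simp only [Set.mem_setOf_eq]
    constructor
    · intro h i
      by_cases hi : (i : ℕ) < n
      · simp only [hi, dif_pos]
        exact h _
      · simp only [hi, dif_neg, not_false_eq_true, inner_zero_left]
        exact zero_le_one
    · intro h i
      have := h ⟨i, by omega⟩
      simpa using this
  · obtain ⟨x, hx⟩ := h1
    have hx' := interior_subset hx
    by_contra hS
    rw [Finset.not_nonempty_iff_eq_empty] at hS
    rw [hS] at hx'
    simp at hx'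
  · intro s hs
    have hc := h4 s hs
    set a' : Fin (d + 3) → E d := fun i => if h : (i : ℕ) < n then a ⟨i, h⟩ else 0 with ha'
    set b' : Fin (d + 3) → ℝ := fun i => if h : (i : ℕ) < n then b ⟨i, h⟩ else 1 with hb'
    have key : (univ.filter fun i => sl a' b' s i = 0).card = d := by
      refine Eq.trans ?_ hc
      have : {i | inner ℝ (a i) s = b i}.ncard = (univ.filter fun i : Fin n => inner ℝ (a i) s = b i).card := by
        rw [← Set.ncard_coe_finset]
        congr 1
        ext i
        simp
      rw [this]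
      symm
      apply Finset.card_bij (fun (i : Fin n) _ => (⟨i, by omega⟩ : Fin (d + 3)))
      · intro i hi
        rw [Finset.mem_filter] at hi ⊢
        refine ⟨Finset.mem_univ _, ?_⟩
        simp only [sl, ha', hb', i.2, dif_pos]
        rw [hi.2, sub_self]
      · intro i _ j _ hij
        apply Fin.ext
        simpa using hij
      · intro i hi
        rw [Finset.mem_filter] at hi
        by_cases hin : (i : ℕ) < n
        · refine ⟨⟨i, hin⟩, ?_, rfl⟩
          rw [Finset.mem_filter]
          refine ⟨Finset.mem_univ _, ?_⟩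
          have := hi.2
          simp only [sl, ha', hb', hin, dif_pos] at this
          linarith
        · exfalso
          have := hi.2
          simp only [sl, ha', hb', hin, dif_neg, not_false_eq_true, inner_zero_left] at this
          norm_num at this
    have hsum := Finset.card_filter_add_card_filter_not (s := (univ : Finset (Fin (d + 3))))
      (fun i => sl a' b' s i = 0)
    rw [key, Finset.card_univ, Fintype.card_fin] at hsum
    unfold sp
    simp only [ne_eq]
    omega

end Pool.Agent.LibFF40
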