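import Mathlib

/-! # Closed lists and the wedge lemma -/

set_option autoImplicit false

namespace Pool.Agent.LibFF40

open List

variable {α : Type*}

/-- `v :: M` is a closed list: no repetitions, consecutive elements (cyclically) are related -/
def CL (R : α → α → Prop) (v : α) (M : List α) : Prop :=
  (v :: M).Nodup ∧ (v :: (M ++ [v])).IsChain R

theorem CL.rotate {R : α → α → Prop} {v u : α} {M₁ M₂ : List α} (h : CL R v (M₁ ++ u :: M₂)) :
    CL R u (M₂ ++ v :: M₁) := by
  obtain ⟨h1, h2⟩ := h
  refine ⟨?_, ?_⟩
  · have e : (v :: (M₁ ++ u :: M₂)).Perm (u :: (M₂ ++ v :: M₁)) := by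
      have : (v :: (M₁ ++ u :: M₂)).Perm ((u :: M₂) ++ (v :: M₁)) := by
        rw [show v :: (M₁ ++ u :: M₂) = (v :: M₁) ++ (u :: M₂) from rfl]
        exact List.perm_append_comm
      exact this
    exact e.nodup_iff.1 h1
  · rw [show v :: (M₁ ++ u :: M₂ ++ [v]) = (v :: M₁) ++ u :: (M₂ ++ [v]) by simp,
      List.isChain_split] at h2
    rw [show u :: (M₂ ++ v :: M₁ ++ [u]) = (u :: M₂) ++ v :: (M₁ ++ [u]) by simp,
      List.isChain_split]
    exact ⟨h2.2, h2.1⟩

/-- every element of a closed list can be the first one -/
theorem CL.start {R : α → α → Prop} {v u : α} {M : List α} (h : CL R v M) (hu : u ∈ v :: M) :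
    ∃ N, CL R u N ∧ ∀ x, x ∈ u :: N ↔ x ∈ v :: M := by
  rcases List.mem_cons.1 hu with rfl | hu
  · exact ⟨M, h, fun x => Iff.rfl⟩
  · obtain ⟨M₁, M₂, rfl⟩ := List.append_of_mem hu
    refine ⟨_, h.rotate, fun x => ?_⟩
    simp only [List.mem_cons, List.mem_append]
    tauto

section zig

variable (S : α → Prop) [DecidablePred S] (κ : α → α)

/-- the representative of `u` on the current side -/
def pt (s : Bool) (u : α) : α := if S u then (if s then κ u else u) else u

/-- the zigzag -/
def zig : Bool → List α → List α
  | _, [] => []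
  | s, u :: L => if S u then (if s then κ u :: u :: zig false L else u :: κ u :: zig true L)
      else u :: zig s L

theorem zig_perm (s : Bool) (L : List α) :
    (zig S κ s L).Perm (L ++ (L.filter (fun x => decide (S x))).map κ) := by
  induction L generalizing s with
  | nil => simp [zig]
  | cons u L ih =>
    rw [zig]
    by_cases hu : S u
    · rw [if_pos hu, List.filter_cons_of_pos (by simpa using hu), List.map_cons]
      cases s
      · rw [if_neg (by simp)]
        refine (((ih true).cons (κ u)).cons u).trans ?_
        rw [List.cons_append]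
        refine List.Perm.cons u ?_
        exact List.perm_middle.symm
      · rw [if_pos rfl]
        refine ((((ih false).cons u)).cons (κ u)).trans ?_
        refine (List.Perm.swap u (κ u) _).trans ?_
        rw [List.cons_append]
        refine List.Perm.cons u ?_
        exact List.perm_middle.symm
    · rw [if_neg hu, List.filter_cons_of_neg (by simpa using hu)]
      exact (ih s).cons u

variable {S κ} {R : α → α → Prop}

theorem zig_chain (h2 : ∀ u v, S u → S v → R u v → R (κ u) (κ v)) (h3 : ∀ u, S u → R u (κ u))
    (h3' : ∀ u, S u → R (κ u) u)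
    (h4 : ∀ u v, S u → ¬ S v → R u v → R (κ u) v) (h4' : ∀ u v, ¬ S u → S v → R u v → R u (κ v))
    (z : α) (hz : ¬ S z) (L : List α) :
    ∀ (s : Bool) (u : α), (u :: (L ++ [z])).IsChain R →
      (pt S κ s u :: (zig S κ s L ++ [z])).IsChain R := by
  have key : ∀ (s : Bool) (u v : α), R u v → R (pt S κ s u) (pt S κ s v) := by
    intro s u v huv
    unfold pt
    by_cases hu : S u <;> by_cases hv : S v <;> cases s <;> simp only [hu, hv, if_true, if_false,
      Bool.false_eq_true]
    · exact huv
    · exact h2 u v hu hv huv
    · exact huv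
    · exact h4 u v hu hv huv
    · exact huv
    · exact h4' u v hu hv huv
    · exact huv
    · exact huv
  induction L with
  | nil =>
    intro s u h
    simp only [zig, List.nil_append] at h ⊢
    rw [List.isChain_cons_cons] at h ⊢
    refine ⟨?_, h.2⟩
    have h5 := key s u z h.1
    rwa [show pt S κ s z = z by unfold pt; rw [if_neg hz]] at h5
  | cons v L ih =>
    intro s u h
    rw [List.cons_append, List.isChain_cons_cons] at h
    obtain ⟨huv, h⟩ := h
    have hk := key s u v huv
    by_cases hv : S v
    · rw [zig, if_pos hv]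
      have hpt : pt S κ s v = if s then κ v else v := by unfold pt; rw [if_pos hv]
      rw [hpt] at hk
      cases s
      · simp only [Bool.false_eq_true, if_false] at hk ⊢
        rw [List.cons_append, List.cons_append, List.isChain_cons_cons, List.isChain_cons_cons]
        refine ⟨hk, h3 v hv, ?_⟩
        have h6 := ih true v h
        rwa [show pt S κ true v = κ v by unfold pt; rw [if_pos hv, if_pos rfl]] at h6
      · simp only [if_true] at hk ⊢
        rw [List.cons_append, List.cons_append, List.isChain_cons_cons, List.isChain_cons_cons]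
        refine ⟨hk, h3' v hv, ?_⟩
        have h6 := ih false v h
        rwa [show pt S κ false v = v by unfold pt; rw [if_pos hv, if_neg (by simp)]] at h6
    · rw [zig, if_neg hv]
      have hpt : pt S κ s v = v := by unfold pt; rw [if_neg hv]
      rw [List.cons_append, List.isChain_cons_cons]
      rw [hpt] at hk
      refine ⟨hk, ?_⟩
      have h6 := ih s v h
      rwa [hpt] at h6

end zig

/-- The wedge lemma: a closed list of the old graph gives a list of the new graph, from one copy of `v` to the
other one. -/
theorem wedge {R : α → α → Prop} (hsymm : ∀ u v, R u v → R v u) (S : α → Prop) (κ : α → α)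
    (h2 : ∀ u v, S u → S v → R u v → R (κ u) (κ v)) (h3 : ∀ u, S u → R u (κ u))
    (h4 : ∀ u v, S u → ¬ S v → R u v → R (κ u) v) {v : α} {M : List α} (h : CL R v M) (hv : S v)
    (hinj : ∀ x y, S x → S y → κ x = κ y → x = y) (hdis : ∀ x ∈ v :: M, S x → κ x ∉ v :: M) :
    ∃ N : List α, (κ v :: (N ++ [v])).Nodup ∧ (κ v :: (N ++ [v])).IsChain R ∧
      ∀ x, x ∈ κ v :: (N ++ [v]) ↔ x ∈ v :: M ∨ ∃ u ∈ v :: M, S u ∧ x = κ u := by
  classical
  have hperm : ∀ N : List α, (κ v :: (N ++ [v])).Perm ((v :: M) ++
      ((v :: M).filter (fun x => decide (S x))).map κ) →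
      (κ v :: (N ++ [v])).Nodup ∧
      ∀ x, x ∈ κ v :: (N ++ [v]) ↔ x ∈ v :: M ∨ ∃ u ∈ v :: M, S u ∧ x = κ u := by
    intro N hN
    refine ⟨?_, ?_⟩
    · rw [hN.nodup_iff, List.nodup_append]
      refine ⟨h.1, ?_, ?_⟩
      · refine List.Nodup.map_on ?_ (h.1.filter _)
        intro x hx y hy hxy
        rw [List.mem_filter] at hx hy
        exact hinj x y (by simpa using hx.2) (by simpa using hy.2) hxy
      · intro a ha b hb hab
        rw [List.mem_map] at hb
        obtain ⟨c, hc, rfl⟩ := hb
        rw [List.mem_filter] at hc
        exact hdis c hc.1 (by simpa using hc.2) (hab ▸ ha)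
    · intro x
      rw [hN.mem_iff, List.mem_append, List.mem_map]
      refine or_congr Iff.rfl ?_
      constructor
      · rintro ⟨u, hu, rfl⟩
        rw [List.mem_filter] at hu
        exact ⟨u, hu.1, by simpa using hu.2, rfl⟩
      · rintro ⟨u, hu, hSu, rfl⟩
        exact ⟨u, List.mem_filter.2 ⟨hu, by simpa using hSu⟩, rfl⟩
  by_cases hall : ∀ u ∈ M, S u
  · -- prism
    refine ⟨M.map κ ++ M.reverse, ?_⟩
    have hP : (κ v :: (M.map κ ++ M.reverse ++ [v])).Perm ((v :: M) ++
        ((v :: M).filter (fun x => decide (S x))).map κ) := by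
      have e1 : (v :: M).filter (fun x => decide (S x)) = v :: M := by
        rw [List.filter_eq_self]
        intro a ha
        rcases List.mem_cons.1 ha with rfl | ha
        · simpa using hv
        · simpa using hall a ha
      rw [e1, List.map_cons]
      have e2 : κ v :: (M.map κ ++ M.reverse ++ [v]) = (κ v :: M.map κ) ++ (M.reverse ++ [v]) := by simp
      rw [e2]
      refine (List.perm_append_comm).trans ?_
      refine List.Perm.append ?_ (List.Perm.refl _)
      rw [← List.reverse_cons]
      exact List.reverse_perm _
    obtain ⟨a1, a2⟩ := hperm _ hP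
    refine ⟨a1, ?_, a2⟩
    -- chain
    have hch := h.2
    have hc1 : (v :: M).IsChain R := by
      rw [← List.cons_append] at hch
      exact hch.left_of_append
    have hc2 : ((v :: M).map κ).IsChain R := by
      rw [List.isChain_map]
      refine hc1.imp_of_mem_imp ?_
      intro a b ha hb hab
      have hSa : S a := by
        rcases List.mem_cons.1 ha with rfl | ha
        · exact hv
        · exact hall a ha
      have hSb : S b := by
        rcases List.mem_cons.1 hb with rfl | hb
        · exact hv
        · exact hall b hb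
      exact h2 a b hSa hSb hab
    have hc3 : ((v :: M).reverse).IsChain R := by
      rw [List.isChain_reverse]
      exact hc1.imp fun a b hab => hsymm _ _ hab
    have e3 : κ v :: (M.map κ ++ M.reverse ++ [v]) = (v :: M).map κ ++ (v :: M).reverse := by simp
    rw [e3, List.isChain_append]
    refine ⟨hc2, hc3, ?_⟩
    intro a ha b hb
    rw [List.head?_reverse] at hb
    rw [List.getLast?_map] at ha
    rw [Option.mem_def] at ha hb
    rw [hb] at ha
    simp only [Option.map_some, Option.some.injEq] at ha
    have hbm : b ∈ v :: M := List.mem_of_getLast? hb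
    have hSb : S b := by
      rcases List.mem_cons.1 hbm with rfl | hb
      · exact hv
      · exact hall b hb
    rw [← ha]
    exact hsymm _ _ (h3 b hSb)
  · push Not at hall
    obtain ⟨z, hzM, hz⟩ := hall
    obtain ⟨M₁, M₂, rfl⟩ := List.append_of_mem hzM
    have hch := h.2
    rw [show v :: (M₁ ++ z :: M₂ ++ [v]) = (v :: M₁) ++ z :: (M₂ ++ [v]) by simp,
      List.isChain_split] at hch
    obtain ⟨hc1, hc2⟩ := hch
    have h3' : ∀ u, S u → R (κ u) u := fun u hu => hsymm _ _ (h3 u hu)
    have h4' : ∀ u v, ¬ S u → S v → R u v → R u (κ v) := fun u v hu hv huv =>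
      hsymm _ _ (h4 v u hv hu (hsymm _ _ huv))
    have hk := zig_chain h2 h3 h3' h4 h4' z hz
    have a1 := hk M₁ true v (by simpa using hc1)
    have a2 := hk M₂.reverse false v (by
      have e : v :: (M₂.reverse ++ [z]) = (z :: (M₂ ++ [v])).reverse := by simp
      rw [e, List.isChain_reverse]
      exact hc2.imp fun a b hab => hsymm _ _ hab)
    rw [show pt S κ true v = κ v by unfold pt; rw [if_pos hv, if_pos rfl]] at a1
    rw [show pt S κ false v = v by unfold pt; rw [if_pos hv, if_neg (by simp)]] at a2
    have a3 : (z :: ((zig S κ false M₂.reverse).reverse ++ [v])).IsChain R := by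
      have e : z :: ((zig S κ false M₂.reverse).reverse ++ [v]) =
          (v :: (zig S κ false M₂.reverse ++ [z])).reverse := by simp
      rw [e, List.isChain_reverse]
      exact a2.imp fun a b hab => hsymm _ _ hab
    refine ⟨zig S κ true M₁ ++ z :: (zig S κ false M₂.reverse).reverse, ?_⟩
    have hP : (κ v :: (zig S κ true M₁ ++ z :: (zig S κ false M₂.reverse).reverse ++ [v])).Perm
        ((v :: (M₁ ++ z :: M₂)) ++ ((v :: (M₁ ++ z :: M₂)).filter (fun x => decide (S x))).map κ) := by
      rw [List.filter_cons_of_pos (by simpa using hv), List.filter_append,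
        List.filter_cons_of_neg (by simpa using hz), List.map_cons, List.map_append]
      have p1 := zig_perm S κ true M₁
      have p2 : ((zig S κ false M₂.reverse).reverse).Perm
          (M₂ ++ (M₂.filter (fun x => decide (S x))).map κ) := by
        refine (List.reverse_perm _).trans ((zig_perm S κ false M₂.reverse).trans ?_)
        refine List.Perm.append (List.reverse_perm _) ?_
        refine List.Perm.map κ ?_
        exact (List.reverse_perm M₂).filter _
      rw [← Multiset.coe_eq_coe] at p1 p2 ⊢
      simp only [← Multiset.cons_coe, ← Multiset.coe_add] at p1 p2 ⊢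
      rw [p1, p2]
      simp only [← Multiset.singleton_add, Multiset.coe_nil, add_zero]
      abel
    obtain ⟨b1, b2⟩ := hperm _ hP
    refine ⟨b1, ?_, b2⟩
    have e : κ v :: (zig S κ true M₁ ++ z :: (zig S κ false M₂.reverse).reverse ++ [v]) =
        (κ v :: zig S κ true M₁) ++ z :: ((zig S κ false M₂.reverse).reverse ++ [v]) := by simp
    rw [e, List.isChain_split]
    exact ⟨by simpa using a1, a3⟩

end Pool.Agent.LibFF40
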