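import Pool.Agent.LibFF40.W4

/-! # W2: the alternating word of odd length, all letters different from their neighbours -/

set_option autoImplicit false

noncomputable section

namespace Pool.Agent.LibFF40

open Finset

private theorem W2_R2_of {u v : Finset ℕ} {x y : ℕ} (hxy : x ≠ y) (hxu : x ∈ u) (hyu : y ∈ u) (hxv : x ∈ v)
    (hyv : y ∈ v) : R2 u v := by
  unfold R2
  calc 2 = ({x, y} : Finset ℕ).card := (Finset.card_pair hxy).symm
    _ ≤ (u ∩ v).card := Finset.card_le_card (by
      intro z hz
      rw [Finset.mem_insert, Finset.mem_singleton] at hz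
      rcases hz with rfl | rfl
      · exact Finset.mem_inter.2 ⟨hxu, hxv⟩
      · exact Finset.mem_inter.2 ⟨hyu, hyv⟩)

/-- the triple of the path -/
def W2_tr (N a e : ℕ) : Finset ℕ := {2 * a, 2 * e + 1, N}

private theorem W2_tr_inj {N a e a' e' : ℕ} (h : 2 * a < N) (h1 : 2 * e + 1 < N)
    (h2 : W2_tr N a e = W2_tr N a' e') : a = a' ∧ e = e' := by
  have k1 : 2 * a ∈ W2_tr N a' e' := by rw [← h2]; simp [W2_tr]
  have k2 : 2 * e + 1 ∈ W2_tr N a' e' := by rw [← h2]; simp [W2_tr]
  simp only [W2_tr, Finset.mem_insert, Finset.mem_singleton] at k1 k2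
  omega

private theorem W2_col {N a a' e : ℕ} (h : 2 * e + 1 < N) : R2 (W2_tr N a e) (W2_tr N a' e) :=
  W2_R2_of (x := 2 * e + 1) (y := N) (by omega) (by simp [W2_tr]) (by simp [W2_tr]) (by simp [W2_tr])
    (by simp [W2_tr])

private theorem W2_row {N a e e' : ℕ} (h : 2 * a < N) : R2 (W2_tr N a e) (W2_tr N a e') :=
  W2_R2_of (x := 2 * a) (y := N) (by omega) (by simp [W2_tr]) (by simp [W2_tr]) (by simp [W2_tr])
    (by simp [W2_tr])

private theorem W2_path (N c : ℕ) (hc : 2 * c + 1 < N) :
    ∃ P : List (Finset ℕ), P.Nodup ∧ P.IsChain R2 ∧ P.head? = some (W2_tr N 0 0) ∧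
      P.getLast? = some (W2_tr N c c) ∧ ∀ x, x ∈ P ↔ ∃ a e, a ≤ e ∧ e ≤ c ∧ x = W2_tr N a e := by
  induction c with
  | zero =>
    refine ⟨[W2_tr N 0 0], by simp, by simp, by simp, by simp, fun x => ?_⟩
    rw [List.mem_singleton]
    constructor
    · intro h
      exact ⟨0, 0, le_refl _, le_refl _, h⟩
    · rintro ⟨a, e, h1, h2, h3⟩
      have he : e = 0 := by omega
      have ha : a = 0 := by omega
      subst he ha
      exact h3
  | succ c ih =>
    obtain ⟨P, h1, h2, h3, h4, h5⟩ := ih (by omega)
    set C : List (Finset ℕ) := (c :: (List.range c ++ [c + 1])).map (fun a => W2_tr N a (c + 1)) with hC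
    have hCmem : ∀ x, x ∈ C ↔ ∃ a, a ≤ c + 1 ∧ x = W2_tr N a (c + 1) := by
      intro x
      rw [hC, List.mem_map]
      constructor
      · rintro ⟨a, ha, rfl⟩
        simp only [List.mem_cons, List.mem_append, List.mem_range, List.not_mem_nil, or_false] at ha
        exact ⟨a, by omega, rfl⟩
      · rintro ⟨a, ha, rfl⟩
        refine ⟨a, ?_, rfl⟩
        simp only [List.mem_cons, List.mem_append, List.mem_range, List.not_mem_nil, or_false]
        omega
    have hCnd : C.Nodup := by
      rw [hC]
      apply List.Nodup.map_on
      · intro x hx y hy hxy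
        simp only [List.mem_cons, List.mem_append, List.mem_range, List.not_mem_nil, or_false] at hx hy
        exact (W2_tr_inj (by omega) (by omega) hxy).1
      · rw [List.nodup_cons, List.nodup_append]
        refine ⟨by simp, List.nodup_range, by simp, ?_⟩
        intro a ha b hb
        rw [List.mem_range] at ha
        rw [List.mem_singleton] at hb
        omega
    have hCch : C.IsChain R2 := by
      apply List.Pairwise.isChain
      rw [hC, List.pairwise_map]
      exact List.pairwise_of_forall fun x y => W2_col hc
    refine ⟨P ++ C, ?_, ?_, ?_, ?_, ?_⟩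
    · rw [List.nodup_append]
      refine ⟨h1, hCnd, ?_⟩
      intro x hx y hy hxy
      obtain ⟨a, e, k1, k2, k3⟩ := (h5 x).1 hx
      obtain ⟨a', k4, k5⟩ := (hCmem y).1 hy
      have := W2_tr_inj (N := N) (a := a) (e := e) (a' := a') (e' := c + 1) (by omega) (by omega)
        (by rw [← k3, ← k5, hxy])
      omega
    · rw [List.isChain_append]
      refine ⟨h2, hCch, ?_⟩
      intro x hx y hy
      rw [h4] at hx
      have hy' : W2_tr N c (c + 1) = y := by
        rw [hC] at hy
        simpa using hy
      have hx' : W2_tr N c c = x := by simpa using hx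
      rw [← hx', ← hy']
      exact W2_row (by omega)
    · rw [List.head?_append, h3]
      rfl
    · rw [List.getLast?_append]
      have : C.getLast? = some (W2_tr N (c + 1) (c + 1)) := by
        rw [hC, List.map_cons, List.map_append, List.map_singleton, ← List.cons_append,
          List.getLast?_append]
        rfl
      rw [this]
      rfl
    · intro x
      rw [List.mem_append, h5, hCmem]
      constructor
      · rintro (⟨a, e, k1, k2, k3⟩ | ⟨a, k1, k2⟩)
        · exact ⟨a, e, k1, by omega, k3⟩
        · exact ⟨a, c + 1, k1, le_refl _, k2⟩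
      · rintro ⟨a, e, k1, k2, k3⟩
        by_cases he : e ≤ c
        · exact Or.inl ⟨a, e, k1, he, k3⟩
        · have he' : e = c + 1 := by omega
          subst he'
          exact Or.inr ⟨a, k1, k3⟩

private theorem W2_par_even (a : ℕ) : par (2 * a) = false := by
  unfold par
  rw [decide_eq_false_iff_not]
  omega

private theorem W2_par_odd (a : ℕ) : par (2 * a + 1) = true := by
  unfold par
  rw [decide_eq_true_eq]
  omega

private theorem W2_par_ne {a b : ℕ} (h : par a ≠ par b) : a % 2 ≠ b % 2 := by
  intro h'
  apply h
  unfold par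
  rw [h']

private theorem W2_ne_par {a b : ℕ} (h : a % 2 ≠ b % 2) : par a ≠ par b := by
  intro h'
  unfold par at h'
  rw [decide_eq_decide] at h'
  omega

theorem alt_base (m : ℕ) (hm : 1 ≤ m) : Closed (TT par (range (2 * m + 1))) := by
  induction m, hm using Nat.le_induction with
  | base =>
    refine ⟨{0, 1, 2}, [], ⟨by simp, ?_⟩, fun x => ?_⟩
    · have : R2 ({0, 1, 2} : Finset ℕ) {0, 1, 2} := by unfold R2; decide
      simpa using this
    · rw [List.mem_singleton]
      constructor
      · rintro rfl
        refine ⟨?_, 0, 1, 2, by omega, by omega, W2_ne_par (by omega), W2_ne_par (by omega), rfl⟩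
        decide
      · rintro ⟨h1, i, j, l, hij, hjl, h2, h3, rfl⟩
        have hl : l < 3 := by
          have := h1 (show l ∈ ({i, j, l} : Finset ℕ) by simp)
          simpa using this
        have hl' : l = 2 := by omega
        have hj' : j = 1 := by omega
        have hi' : i = 0 := by omega
        subst hl' hj' hi'
        rfl
  | succ m hm ih =>
    obtain ⟨u, M, hM, hT⟩ := ih
    have hA : (range (2 * m + 2)).erase (2 * m + 1) = range (2 * m + 1) := by
      ext x
      simp only [Finset.mem_erase, Finset.mem_range]
      omega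
    have htw : Twin par (range (2 * m + 2)) 0 (2 * m + 1) := by
      apply twin_ends
      · simp
      · simp
      · omega
      · intro c _
        exact Nat.zero_le c
      · intro c hc
        rw [Finset.mem_range] at hc
        omega
      · exact W2_ne_par (by omega)
    have hv : ({0, 1, 2 * m} : Finset ℕ) ∈ TT par (range (2 * m + 1)) := by
      refine ⟨?_, 0, 1, 2 * m, by omega, by omega, W2_ne_par (by omega), W2_ne_par (by omega), rfl⟩
      intro x hx
      simp only [Finset.mem_insert, Finset.mem_singleton] at hx
      rw [Finset.mem_range]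
      omega
    obtain ⟨M', hM', hMM⟩ := hM.start ((hT _).2 hv)
    obtain ⟨N, hN1, hN2, hN3⟩ := wedge_words par (range (2 * m + 2)) 0 (2 * m + 1) htw {0, 1, 2 * m} M' hM'
      (by intro x; rw [hMM, hT, hA]) (by simp)
    obtain ⟨P, hP1, hP2, hP3, hP4, hP5⟩ := W2_path (2 * m + 2) m (by omega)
    set k : Finset ℕ := insert (2 * m + 1) (({0, 1, 2 * m} : Finset ℕ).erase 0) with hk
    have hk1 : 2 * m ∈ k := by
      rw [hk, Finset.mem_insert, Finset.mem_erase]
      right
      exact ⟨by omega, by simp⟩
    have hk2 : 2 * m + 1 ∈ k := by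
      rw [hk, Finset.mem_insert]
      exact Or.inl rfl
    refine ⟨k, N ++ [{0, 1, 2 * m}] ++ P, ⟨?_, ?_⟩, ?_⟩
    · rw [← List.cons_append, List.nodup_append]
      refine ⟨hN1, hP1, ?_⟩
      intro x hx y hy hxy
      obtain ⟨hx1, -⟩ := (hN3 x).1 hx
      obtain ⟨a, e, -, -, hy1⟩ := (hP5 y).1 hy
      have h1 : 2 * m + 2 ∈ x := by
        rw [hxy, hy1]
        simp [W2_tr]
      have := hx1 h1
      simp at this
    · rw [List.append_assoc, ← List.cons_append, List.isChain_append]
      refine ⟨hN2, ?_, ?_⟩
      · rw [List.isChain_append]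
        refine ⟨hP2, by simp, ?_⟩
        intro x hx y hy
        rw [hP4] at hx
        have hx' : W2_tr (2 * m + 2) m m = x := by simpa using hx
        have hy' : k = y := by simpa using hy
        rw [← hx', ← hy']
        exact W2_R2_of (x := 2 * m) (y := 2 * m + 1) (by omega) (by simp [W2_tr]) (by simp [W2_tr]) hk1 hk2
      · intro x hx y hy
        rw [← List.cons_append, List.getLast?_append] at hx
        have hx' : ({0, 1, 2 * m} : Finset ℕ) = x := by simpa using hx
        rw [List.head?_append, hP3] at hy
        have hy' : W2_tr (2 * m + 2) 0 0 = y := by simpa using hy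
        rw [← hx', ← hy']
        exact W2_R2_of (x := 0) (y := 1) (by omega) (by simp) (by simp) (by simp [W2_tr]) (by simp [W2_tr])
    · intro x
      rw [← List.cons_append, List.mem_append, hN3, hP5]
      constructor
      · rintro (⟨h1, h2⟩ | ⟨a, e, h1, h2, h3⟩)
        · refine ⟨h1.trans ?_, h2⟩
          intro y hy
          rw [Finset.mem_range] at hy ⊢
          omega
        · rw [h3]
          refine ⟨?_, 2 * a, 2 * e + 1, 2 * m + 2, by omega, by omega, W2_ne_par (by omega),
            W2_ne_par (by omega), rfl⟩
          intro y hy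
          simp only [W2_tr, Finset.mem_insert, Finset.mem_singleton] at hy
          rw [Finset.mem_range]
          omega
      · rintro ⟨h1, i, j, l, hij, hjl, h2, h3, rfl⟩
        have hl : l < 2 * (m + 1) + 1 := by
          have := h1 (show l ∈ ({i, j, l} : Finset ℕ) by simp)
          simpa using this
        by_cases hl' : l = 2 * m + 2
        · right
          have k2 := W2_par_ne h2
          have k3 := W2_par_ne h3
          refine ⟨i / 2, j / 2, by omega, by omega, ?_⟩
          have e1 : 2 * (i / 2) = i := by omega
          have e2 : 2 * (j / 2) + 1 = j := by omega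
          rw [W2_tr, e1, e2, hl']
        · left
          refine ⟨?_, i, j, l, hij, hjl, h2, h3, rfl⟩
          intro y hy
          simp only [Finset.mem_insert, Finset.mem_singleton] at hy
          rw [Finset.mem_range]
          omega

end Pool.Agent.LibFF40
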