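import Pool.Agent.LibFF40.Defs

/-
PLAN (W3). exchange: v = {i < j < l} alternates, c not in v. If c < i: {c, j, l} if w c = w i, else {c, i, j}; if i < c < j: {c, j, l} if w c = w i, else {i, c, l}; if j < c < l: {i, c, l} if w c = w j,
else {i, j, c}; if l < c: {i, j, c} if w c = w l, else {j, l, c}. (w is Bool-valued: w c /= w i and w i /= w j give w c = w j.)
three: take v in TT w A (card 3); A has two more letters c /= c'; exchange gives v' containing c, v'' containing c', each shares two letters with v, so c' is not in v' and the three are different.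
So the list has length >= 3. four_two: among four letters at most two triples alternate: for the subsets of Q = {a < b < c < e}: {a,b,c} and {a,b,e} together need w c = w e, ...; easiest: three different triples
in Q, each determined by the missing letter; write out the four conditions for the letters and decide on the Bool values.
-/

set_option autoImplicit false

noncomputable section

namespace Pool.Agent.LibFF40

open Finset

variable {ι : Type} [LinearOrder ι]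

private theorem W3_bool {a b c : Bool} (h : a ≠ b) (h' : b ≠ c) : a = c := by
  revert h h'
  cases a <;> cases b <;> cases c <;> simp

private theorem W3_bool' {a b c : Bool} (h : a ≠ b) (h' : c ≠ a) : c = b := by
  revert h h'
  cases a <;> cases b <;> cases c <;> simp

private theorem W3_mk (w : ι → Bool) (v : Finset ι) (c : ι) (hc : c ∉ v) (x y : ι) (hx : x ∈ v)
    (hy : y ∈ v) (hxy : x ≠ y) (v' : Finset ι) (he : v' = insert c {x, y}) (h : Alt w v') :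
    ∃ v', Alt w v' ∧ c ∈ v' ∧ v' ⊆ insert c v ∧ (v ∩ v').card = 2 := by
  refine ⟨v', h, ?_, ?_, ?_⟩
  · rw [he]
    exact mem_insert_self _ _
  · rw [he]
    apply insert_subset_insert
    intro z hz
    rw [mem_insert, mem_singleton] at hz
    rcases hz with rfl | rfl
    · exact hx
    · exact hy
  · have h1 : v ∩ v' = {x, y} := by
      rw [he]
      ext z
      rw [mem_inter, mem_insert, mem_insert, mem_singleton]
      constructor
      · rintro ⟨hz, rfl | hz'⟩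
        · exact absurd hz hc
        · exact hz'
      · rintro (rfl | rfl)
        · exact ⟨hx, Or.inr (Or.inl rfl)⟩
        · exact ⟨hy, Or.inr (Or.inr rfl)⟩
    rw [h1, card_pair hxy]

private theorem W3_r1 (c x y : ι) : ({x, c, y} : Finset ι) = insert c {x, y} :=
  insert_comm _ _ _

private theorem W3_r2 (c x y : ι) : ({x, y, c} : Finset ι) = insert c {x, y} := by
  ext z
  simp only [mem_insert, mem_singleton]
  tauto

theorem exchange (w : ι → Bool) (v : Finset ι) (hv : Alt w v) (c : ι) (hc : c ∉ v) :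
    ∃ v', Alt w v' ∧ c ∈ v' ∧ v' ⊆ insert c v ∧ (v ∩ v').card = 2 := by
  obtain ⟨i, j, l, hij, hjl, h1, h2, rfl⟩ := hv
  have hi : i ∈ ({i, j, l} : Finset ι) := by simp
  have hj : j ∈ ({i, j, l} : Finset ι) := by simp
  have hl : l ∈ ({i, j, l} : Finset ι) := by simp
  have hci : c ≠ i := by
    rintro rfl
    exact hc hi
  have hcj : c ≠ j := by
    rintro rfl
    exact hc hj
  have hcl : c ≠ l := by
    rintro rfl
    exact hc hl
  have hil : w i = w l := W3_bool h1 h2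
  rcases lt_or_gt_of_ne hci with h | h
  · by_cases hw : w c = w i
    · exact W3_mk w _ c hc j l hj hl hjl.ne {c, j, l} rfl
        ⟨c, j, l, h.trans hij, hjl, by rw [hw]; exact h1, h2, rfl⟩
    · exact W3_mk w _ c hc i j hi hj hij.ne {c, i, j} rfl ⟨c, i, j, h, hij, hw, h1, rfl⟩
  rcases lt_or_gt_of_ne hcj with h' | h'
  · by_cases hw : w c = w i
    · exact W3_mk w _ c hc j l hj hl hjl.ne {c, j, l} rfl
        ⟨c, j, l, h', hjl, by rw [hw]; exact h1, h2, rfl⟩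
    · exact W3_mk w _ c hc i l hi hl (hij.trans hjl).ne {i, c, l} (W3_r1 c i l)
        ⟨i, c, l, h, h'.trans hjl, Ne.symm hw, by rw [← hil]; exact hw, rfl⟩
  rcases lt_or_gt_of_ne hcl with h'' | h''
  · by_cases hw : w c = w l
    · exact W3_mk w _ c hc i j hi hj hij.ne {i, j, c} (W3_r2 c i j)
        ⟨i, j, c, hij, h', h1, by rw [hw]; exact h2, rfl⟩
    · exact W3_mk w _ c hc i l hi hl (hij.trans hjl).ne {i, c, l} (W3_r1 c i l)
        ⟨i, c, l, h, h'', by rw [hil]; exact Ne.symm hw, hw, rfl⟩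
  · by_cases hw : w c = w l
    · exact W3_mk w _ c hc i j hi hj hij.ne {i, j, c} (W3_r2 c i j)
        ⟨i, j, c, hij, h', h1, by rw [hw]; exact h2, rfl⟩
    · exact W3_mk w _ c hc j l hj hl hjl.ne {j, l, c} (W3_r2 c j l)
        ⟨j, l, c, hjl, h'', h2, Ne.symm hw, rfl⟩

private theorem W3_card (w : ι → Bool) (v : Finset ι) (hv : Alt w v) : v.card = 3 := by
  obtain ⟨i, j, l, hij, hjl, -, -, rfl⟩ := hv
  rw [card_eq_three]
  exact ⟨i, j, l, hij.ne, (hij.trans hjl).ne, hjl.ne, rfl⟩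

theorem len_three (w : ι → Bool) (A : Finset ι) (hA : 5 ≤ A.card) (L : List (Finset ι)) (hL : L.Nodup)
    (hne : L ≠ []) (hT : ∀ x, x ∈ L ↔ x ∈ TT w A) : 3 ≤ L.length := by
  obtain ⟨v, hv⟩ := List.exists_mem_of_ne_nil L hne
  obtain ⟨hvA, hva⟩ := (hT v).1 hv
  have h1 : 2 ≤ (A \ v).card := by
    have := card_sdiff_of_subset hvA
    rw [W3_card w v hva] at this
    omega
  obtain ⟨c, hcm, c', hcm', hcc⟩ := one_lt_card.1 h1
  rw [mem_sdiff] at hcm hcm'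
  obtain ⟨v1, h2, h3, h4, -⟩ := exchange w v hva c hcm.2
  obtain ⟨v2, h5, h6, h7, -⟩ := exchange w v hva c' hcm'.2
  have hm1 : v1 ∈ L := (hT v1).2 ⟨h4.trans (insert_subset hcm.1 hvA), h2⟩
  have hm2 : v2 ∈ L := (hT v2).2 ⟨h7.trans (insert_subset hcm'.1 hvA), h5⟩
  have hn1 : v ≠ v1 := by
    rintro rfl
    exact hcm.2 h3
  have hn2 : v ≠ v2 := by
    rintro rfl
    exact hcm'.2 h6
  have hn3 : v1 ≠ v2 := by
    rintro rfl
    have h8 := h4 h6
    rw [mem_insert] at h8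
    rcases h8 with h8 | h8
    · exact hcc h8.symm
    · exact hcm'.2 h8
  have hnd : [v, v1, v2].Nodup := by
    simp [hn1, hn2, hn3]
  have hsub : [v, v1, v2] ⊆ L := by
    intro z hz
    simp only [List.mem_cons, List.not_mem_nil, or_false] at hz
    rcases hz with rfl | rfl | rfl
    · exact hv
    · exact hm1
    · exact hm2
  exact (hnd.subperm hsub).length_le

private theorem W3_fin4 : ∀ a b c : Fin 4, a < b → b < c →
    (a = 0 ∧ b = 1 ∧ c = 2) ∨ (a = 0 ∧ b = 1 ∧ c = 3) ∨ (a = 0 ∧ b = 2 ∧ c = 3) ∨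
      (a = 1 ∧ b = 2 ∧ c = 3) := by
  decide

private theorem W3_four (w : ι → Bool) (f : Fin 4 → ι) (hf : StrictMono f) (u : Finset ι)
    (hu : ∀ z ∈ u, ∃ k, f k = z) (ha : Alt w u) :
    (u = {f 0, f 1, f 2} ∧ w (f 0) ≠ w (f 1) ∧ w (f 1) ≠ w (f 2)) ∨
    (u = {f 0, f 1, f 3} ∧ w (f 0) ≠ w (f 1) ∧ w (f 1) ≠ w (f 3)) ∨
    (u = {f 0, f 2, f 3} ∧ w (f 0) ≠ w (f 2) ∧ w (f 2) ≠ w (f 3)) ∨
    (u = {f 1, f 2, f 3} ∧ w (f 1) ≠ w (f 2) ∧ w (f 2) ≠ w (f 3)) := by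
  obtain ⟨i, j, l, hij, hjl, h1, h2, rfl⟩ := ha
  obtain ⟨a, rfl⟩ := hu i (by simp)
  obtain ⟨b, rfl⟩ := hu j (by simp)
  obtain ⟨c, rfl⟩ := hu l (by simp)
  rw [hf.lt_iff_lt] at hij hjl
  have h3 : (a = 0 ∧ b = 1 ∧ c = 2) ∨ (a = 0 ∧ b = 1 ∧ c = 3) ∨ (a = 0 ∧ b = 2 ∧ c = 3) ∨
      (a = 1 ∧ b = 2 ∧ c = 3) := W3_fin4 a b c hij hjl
  rcases h3 with ⟨rfl, rfl, rfl⟩ | ⟨rfl, rfl, rfl⟩ | ⟨rfl, rfl, rfl⟩ | ⟨rfl, rfl, rfl⟩
  · exact Or.inl ⟨rfl, h1, h2⟩
  · exact Or.inr (Or.inl ⟨rfl, h1, h2⟩)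
  · exact Or.inr (Or.inr (Or.inl ⟨rfl, h1, h2⟩))
  · exact Or.inr (Or.inr (Or.inr ⟨rfl, h1, h2⟩))

private theorem W3_dec {ι : Type} (b0 b1 b2 b3 : Bool) (t3 t2 t1 t0 u v x : ι)
    (hu : (u = t3 ∧ b0 ≠ b1 ∧ b1 ≠ b2) ∨ (u = t2 ∧ b0 ≠ b1 ∧ b1 ≠ b3) ∨ (u = t1 ∧ b0 ≠ b2 ∧ b2 ≠ b3) ∨
      (u = t0 ∧ b1 ≠ b2 ∧ b2 ≠ b3))
    (hv : (v = t3 ∧ b0 ≠ b1 ∧ b1 ≠ b2) ∨ (v = t2 ∧ b0 ≠ b1 ∧ b1 ≠ b3) ∨ (v = t1 ∧ b0 ≠ b2 ∧ b2 ≠ b3) ∨
      (v = t0 ∧ b1 ≠ b2 ∧ b2 ≠ b3))
    (hx : (x = t3 ∧ b0 ≠ b1 ∧ b1 ≠ b2) ∨ (x = t2 ∧ b0 ≠ b1 ∧ b1 ≠ b3) ∨ (x = t1 ∧ b0 ≠ b2 ∧ b2 ≠ b3) ∨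
      (x = t0 ∧ b1 ≠ b2 ∧ b2 ≠ b3)) (huv : u ≠ v) : x = u ∨ x = v := by
  cases b0 <;> cases b1 <;> cases b2 <;> cases b3 <;>
    simp only [ne_eq, not_true_eq_false, and_false, or_false, false_or, false_and, reduceCtorEq,
      not_false_eq_true, and_true, or_self] at hu hv hx <;>
    (rcases hu with hu | hu <;> rcases hv with hv | hv <;> rcases hx with hx | hx <;>
      first
      | exact absurd (hu.trans hv.symm) huv
      | exact Or.inl (hx.trans hu.symm)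
      | exact Or.inr (hx.trans hv.symm))

theorem four_two (w : ι → Bool) (Q : Finset ι) (hQ : Q.card = 4) (u v x : Finset ι) (hu : u ⊆ Q) (hv : v ⊆ Q)
    (hx : x ⊆ Q) (hu' : Alt w u) (hv' : Alt w v) (hx' : Alt w x) (huv : u ≠ v) : x = u ∨ x = v := by
  have hr : ∀ y : Finset ι, y ⊆ Q → ∀ z ∈ y, ∃ k, Q.orderEmbOfFin hQ k = z := by
    intro y hy z hz
    have h1 : z ∈ Set.range (Q.orderEmbOfFin hQ) := by
      rw [range_orderEmbOfFin]
      exact hy hz
    exact h1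
  have hf : StrictMono (Q.orderEmbOfFin hQ) := (Q.orderEmbOfFin hQ).strictMono
  exact W3_dec _ _ _ _ _ _ _ _ u v x (W3_four w _ hf u (hr u hu) hu') (W3_four w _ hf v (hr v hv) hv')
    (W3_four w _ hf x (hr x hx) hx') huv

end Pool.Agent.LibFF40
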