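import Pool.Agent.LibFF40.Defs

/-! # W4: twins and the wedge step for words -/

set_option autoImplicit false

noncomputable section

namespace Pool.Agent.LibFF40

open Finset

variable {ι : Type} [LinearOrder ι]

private theorem W4_e1 {i j l a : ι} (hij : i ≠ j) (hil : i ≠ l) :
    insert a ((({i, j, l} : Finset ι)).erase i) = {a, j, l} := by
  rw [Finset.erase_insert (by simp [hij, hil])]

private theorem W4_e2 {i j l a : ι} (hij : i ≠ j) (hjl : j ≠ l) :
    insert a ((({i, j, l} : Finset ι)).erase j) = {i, a, l} := by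
  have h : ({i, j, l} : Finset ι) = {j, i, l} := Finset.insert_comm _ _ _
  rw [h, W4_e1 hij.symm hjl]
  exact Finset.insert_comm _ _ _

private theorem W4_e3 {i j l a : ι} (hil : i ≠ l) (hjl : j ≠ l) :
    insert a ((({i, j, l} : Finset ι)).erase l) = {i, j, a} := by
  have h : ({i, j, l} : Finset ι) = {i, l, j} := by rw [Finset.pair_comm j l]
  rw [h, W4_e2 hil hjl.symm, Finset.pair_comm a j]

private theorem W4_inv {a a' : ι} {v : Finset ι} (h' : a' ∈ v) (h : a ∉ v) (hne : a ≠ a') :
    v = insert a' ((insert a (v.erase a')).erase a) := by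
  rw [Finset.erase_insert (by
    intro h1
    exact h (Finset.mem_of_mem_erase h1)), Finset.insert_erase h']

theorem twin_next (w : ι → Bool) (A : Finset ι) (a a' : ι) (ha : a ∈ A) (ha' : a' ∈ A) (h : a < a')
    (hn : ∀ c ∈ A, ¬ (a < c ∧ c < a')) (hw : w a = w a') : Twin w A a a' := by
  refine ⟨ha, ha', h.ne, fun v hv hv' => ⟨?_, ?_⟩⟩
  · rintro ⟨i, j, l, hij, hjl, h1, h2, rfl⟩
    have hiA : i ∈ A := hv (by simp)
    have hjA : j ∈ A := hv (by simp)
    simp only [Finset.mem_insert, Finset.mem_singleton] at hv'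
    rcases hv' with rfl | rfl | rfl
    · refine ⟨?_, a, j, l, h.trans hij, hjl, by rw [hw]; exact h1, h2, W4_e1 hij.ne (hij.trans hjl).ne⟩
      simp only [Finset.mem_insert, Finset.mem_singleton, not_or]
      exact ⟨h.ne, (h.trans hij).ne, (h.trans (hij.trans hjl)).ne⟩
    · have hai : a ≠ i := by
        rintro rfl
        exact h1 hw
      have hia : i < a := by
        rcases lt_trichotomy i a with k | k | k
        · exact k
        · exact absurd k.symm hai
        · exact absurd ⟨k, hij⟩ (hn i hiA)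
      refine ⟨?_, i, a, l, hia, h.trans hjl, by rw [hw]; exact h1, by rw [hw]; exact h2, W4_e2 hij.ne hjl.ne⟩
      simp only [Finset.mem_insert, Finset.mem_singleton, not_or]
      exact ⟨hai, h.ne, (h.trans hjl).ne⟩
    · have haj : a ≠ j := by
        rintro rfl
        exact h2 hw
      have hja : j < a := by
        rcases lt_trichotomy j a with k | k | k
        · exact k
        · exact absurd k.symm haj
        · exact absurd ⟨k, hjl⟩ (hn j hjA)
      refine ⟨?_, i, j, a, hij, hja, h1, by rw [hw]; exact h2, W4_e3 (hij.trans hjl).ne hjl.ne⟩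
      simp only [Finset.mem_insert, Finset.mem_singleton, not_or]
      exact ⟨(hij.trans hja).ne', haj, h.ne⟩
  · rintro ⟨hav, i, j, l, hij, hjl, h1, h2, he⟩
    have hinv := W4_inv hv' hav h.ne
    have hin : ∀ z ∈ ({i, j, l} : Finset ι), z ≠ a → z ∈ A ∧ z ≠ a' := by
      intro z hz hza
      rw [← he, Finset.mem_insert, Finset.mem_erase] at hz
      rcases hz with hz | hz
      · exact absurd hz hza
      · exact ⟨hv hz.2, hz.1⟩
    have hmem : a ∈ ({i, j, l} : Finset ι) := by rw [← he]; simp
    simp only [Finset.mem_insert, Finset.mem_singleton] at hmem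
    rw [he] at hinv
    rcases hmem with rfl | rfl | rfl
    · obtain ⟨k1, k2⟩ := hin j (by simp) hij.ne'
      have hj : a' < j := by
        rcases lt_trichotomy a' j with k | k | k
        · exact k
        · exact absurd k.symm k2
        · exact absurd ⟨hij, k⟩ (hn j k1)
      refine ⟨a', j, l, hj, hjl, by rw [← hw]; exact h1, h2, ?_⟩
      rw [hinv, W4_e1 hij.ne (hij.trans hjl).ne]
    · obtain ⟨k1, k2⟩ := hin l (by simp) hjl.ne'
      have hj : a' < l := by
        rcases lt_trichotomy a' l with k | k | k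
        · exact k
        · exact absurd k.symm k2
        · exact absurd ⟨hjl, k⟩ (hn l k1)
      refine ⟨i, a', l, hij.trans h, hj, by rw [← hw]; exact h1, by rw [← hw]; exact h2, ?_⟩
      rw [hinv, W4_e2 hij.ne hjl.ne]
    · refine ⟨i, j, a', hij, hjl.trans h, h1, by rw [← hw]; exact h2, ?_⟩
      rw [hinv, W4_e3 (hij.trans hjl).ne hjl.ne]

theorem twin_ends (w : ι → Bool) (A : Finset ι) (a a' : ι) (ha : a ∈ A) (ha' : a' ∈ A) (h : a < a')
    (hmin : ∀ c ∈ A, a ≤ c) (hmax : ∀ c ∈ A, c ≤ a') (hw : w a ≠ w a') : Twin w A a a' := by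
  refine ⟨ha, ha', h.ne, fun v hv hv' => ⟨?_, ?_⟩⟩
  · rintro ⟨i, j, l, hij, hjl, h1, h2, rfl⟩
    have hiA : i ∈ A := hv (by simp)
    have hlA : l ∈ A := hv (by simp)
    simp only [Finset.mem_insert, Finset.mem_singleton] at hv'
    have hl : a' = l := by
      have := hmax l hlA
      rcases hv' with rfl | rfl | rfl
      · exact absurd (hij.trans hjl) (not_lt.2 this)
      · exact absurd hjl (not_lt.2 this)
      · rfl
    subst hl
    have hai : a ≠ i := by
      rintro rfl
      apply hw
      cases hwa : w a <;> cases hwj : w j <;> cases hwl : w a' <;> simp_all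
    have hia : a < i := lt_of_le_of_ne (hmin i hiA) hai
    refine ⟨?_, a, i, j, hia, hij, ?_, h1, ?_⟩
    · simp only [Finset.mem_insert, Finset.mem_singleton, not_or]
      exact ⟨hai, (hia.trans hij).ne, h.ne⟩
    · cases hwa : w a <;> cases hwi : w i <;> cases hwj : w j <;> cases hwl : w a' <;> simp_all
    · rw [W4_e3 (hij.trans hjl).ne hjl.ne, Finset.pair_comm j a, Finset.insert_comm]
  · rintro ⟨hav, i, j, l, hij, hjl, h1, h2, he⟩
    have hinv := W4_inv hv' hav h.ne
    have hin : ∀ z ∈ ({i, j, l} : Finset ι), z ≠ a → z ∈ A ∧ z ≠ a' := by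
      intro z hz hza
      rw [← he, Finset.mem_insert, Finset.mem_erase] at hz
      rcases hz with hz | hz
      · exact absurd hz hza
      · exact ⟨hv hz.2, hz.1⟩
    have hmem : a ∈ ({i, j, l} : Finset ι) := by rw [← he]; simp
    have hi : i = a := by
      by_contra hia
      have h3 := hmin i (hin i (by simp) hia).1
      simp only [Finset.mem_insert, Finset.mem_singleton] at hmem
      rcases hmem with rfl | rfl | rfl
      · exact hia rfl
      · exact absurd hij (not_lt.2 h3)
      · exact absurd (hij.trans hjl) (not_lt.2 h3)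
    subst hi
    rw [he] at hinv
    obtain ⟨k1, k2⟩ := hin l (by simp) (hij.trans hjl).ne'
    have hl : l < a' := lt_of_le_of_ne (hmax l k1) k2
    refine ⟨j, l, a', hjl, hl, h2, ?_, ?_⟩
    · cases hwa : w i <;> cases hwi : w l <;> cases hwj : w j <;> cases hwl : w a' <;> simp_all
    · rw [hinv, W4_e1 hij.ne (hij.trans hjl).ne, Finset.insert_comm, Finset.pair_comm a' l]

private theorem W4_card {w : ι → Bool} {v : Finset ι} (h : Alt w v) : v.card = 3 := by
  obtain ⟨i, j, l, h1, h2, -, -, rfl⟩ := h
  rw [Finset.card_eq_three]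
  exact ⟨i, j, l, h1.ne, (h1.trans h2).ne, h2.ne, rfl⟩

private theorem W4_R2 {ι : Type} [DecidableEq ι] {u v t : Finset ι} (ht : t ⊆ u ∩ v) (h : 2 ≤ t.card) : R2 u v :=
  h.trans (Finset.card_le_card ht)

/-- from one copy of `v` to the other one through all triples of the larger word -/
theorem wedge_words (w : ι → Bool) (A : Finset ι) (a a' : ι) (h : Twin w A a a') (v : Finset ι) (M : List (Finset ι))
    (hM : CL R2 v M) (hT : ∀ x, x ∈ v :: M ↔ x ∈ TT w (A.erase a')) (hv : a ∈ v) :
    ∃ N : List (Finset ι), (insert a' (v.erase a) :: (N ++ [v])).Nodup ∧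
      (insert a' (v.erase a) :: (N ++ [v])).IsChain R2 ∧
      ∀ x, x ∈ insert a' (v.erase a) :: (N ++ [v]) ↔ x ∈ TT w A := by
  obtain ⟨ha, ha', hne, htw⟩ := h
  set R : Finset ι → Finset ι → Prop := fun x y => R2 x y ∧ x.card = 3 ∧ y.card = 3 with hR
  set S : Finset ι → Prop := fun x => a ∈ x ∧ a' ∉ x ∧ x.card = 3 with hS
  set κ : Finset ι → Finset ι := fun x => insert a' (x.erase a) with hκ
  have hκcard : ∀ x, S x → (κ x).card = 3 := by
    rintro x ⟨h1, h2, h3⟩
    rw [hκ]
    simp only
    rw [Finset.card_insert_of_notMem (fun h' => h2 (Finset.mem_of_mem_erase h')), Finset.card_erase_of_mem h1, h3]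
  have hTc : ∀ x ∈ v :: M, x.card = 3 := fun x hx => W4_card ((hT x).1 hx).2
  have hTa : ∀ x ∈ v :: M, a' ∉ x := by
    intro x hx hx'
    have := ((hT x).1 hx).1 hx'
    simp at this
  have hback : ∀ x, S x → insert a ((κ x).erase a') = x := by
    rintro x ⟨h1, h2, -⟩
    rw [hκ]
    simp only
    rw [Finset.erase_insert (fun h' => h2 (Finset.mem_of_mem_erase h')), Finset.insert_erase h1]
  have hCL : CL R v M := by
    refine ⟨hM.1, ?_⟩
    refine List.IsChain.imp_of_mem_imp ?_ hM.2
    intro x y hx hy hxy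
    have hmem : ∀ z, z ∈ v :: (M ++ [v]) → z ∈ v :: M := by
      intro z hz
      simp only [List.mem_cons, List.mem_append, List.not_mem_nil, or_false] at hz ⊢
      tauto
    exact ⟨hxy, hTc x (hmem x hx), hTc y (hmem y hy)⟩
  have hvT : v ∈ v :: M := List.mem_cons_self
  have hsub : ∀ x y, S x → S y → insert a' ((x ∩ y).erase a) ⊆ κ x ∩ κ y := by
    intro x y _ _ z hz
    rw [Finset.mem_insert, Finset.mem_erase, Finset.mem_inter] at hz
    rw [hκ]
    simp only [Finset.mem_inter, Finset.mem_insert, Finset.mem_erase]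
    tauto
  obtain ⟨N, hN1, hN2, hN3⟩ := wedge (R := R) (v := v) (M := M) (fun x y hxy => ⟨by
      have := hxy.1
      unfold R2 at this ⊢
      rwa [Finset.inter_comm], hxy.2.2, hxy.2.1⟩) S κ
    (by
      intro x y hx hy hxy
      refine ⟨W4_R2 (hsub x y hx hy) ?_, hκcard x hx, hκcard y hy⟩
      have h1 : a ∈ x ∩ y := Finset.mem_inter.2 ⟨hx.1, hy.1⟩
      rw [Finset.card_insert_of_notMem (by
        intro h'
        exact hx.2.1 (Finset.mem_inter.1 (Finset.mem_of_mem_erase h')).1), Finset.card_erase_of_mem h1]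
      have := hxy.1
      unfold R2 at this
      omega)
    (by
      intro x hx
      refine ⟨W4_R2 (t := x.erase a) ?_ ?_, hx.2.2, hκcard x hx⟩
      · intro z hz
        rw [hκ]
        simp only [Finset.mem_inter, Finset.mem_insert, Finset.mem_erase] at hz ⊢
        tauto
      · rw [Finset.card_erase_of_mem hx.1, hx.2.2])
    (by
      intro x y hx hy hxy
      refine ⟨?_, hκcard x hx, hxy.2.2⟩
      have h0 := hxy.1
      unfold R2 at h0
      by_cases hay : a ∈ y
      · have hay' : a' ∈ y := by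
          by_contra h'
          exact hy ⟨hay, h', hxy.2.2⟩
        refine W4_R2 (t := insert a' ((x ∩ y).erase a)) ?_ ?_
        · intro z hz
          rw [hκ]
          simp only [Finset.mem_inter, Finset.mem_insert, Finset.mem_erase] at hz ⊢
          rcases hz with rfl | hz
          · exact ⟨Or.inl rfl, hay'⟩
          · exact ⟨Or.inr ⟨hz.1, hz.2.1⟩, hz.2.2⟩
        · rw [Finset.card_insert_of_notMem (by
            intro h'
            exact hx.2.1 (Finset.mem_inter.1 (Finset.mem_of_mem_erase h')).1),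
            Finset.card_erase_of_mem (Finset.mem_inter.2 ⟨hx.1, hay⟩)]
          omega
      · refine W4_R2 (t := x ∩ y) ?_ h0
        intro z hz
        rw [hκ]
        simp only [Finset.mem_inter, Finset.mem_insert, Finset.mem_erase] at hz ⊢
        refine ⟨Or.inr ⟨?_, hz.1⟩, hz.2⟩
        rintro rfl
        exact hay hz.2)
    hCL ⟨hv, hTa v hvT, hTc v hvT⟩
    (by
      intro x y hx hy hxy
      rw [← hback x hx, ← hback y hy, hxy])
    (by
      intro x hx hSx hκx
      apply hTa _ hκx
      rw [hκ]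
      simp)
  refine ⟨N, hN1, hN2.imp fun _ _ h => h.1, fun x => ?_⟩
  rw [hN3]
  constructor
  · rintro (hx | ⟨u, hu, hSu, rfl⟩)
    · obtain ⟨h1, h2⟩ := (hT x).1 hx
      exact ⟨h1.trans (Finset.erase_subset _ _), h2⟩
    · obtain ⟨h1, h2⟩ := (hT u).1 hu
      have h3 : κ u ⊆ A := by
        intro z hz
        rw [hκ] at hz
        simp only [Finset.mem_insert, Finset.mem_erase] at hz
        rcases hz with rfl | hz
        · exact ha'
        · exact Finset.mem_of_mem_erase (h1 hz.2)
      refine ⟨h3, (htw _ h3 (by rw [hκ]; simp)).2 ⟨?_, by rw [hback u hSu]; exact h2⟩⟩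
      rw [hκ]
      simp [hne]
  · rintro ⟨h1, h2⟩
    by_cases hx : a' ∈ x
    · right
      obtain ⟨h3, h4⟩ := (htw x h1 hx).1 h2
      have h5 : insert a (x.erase a') ∈ v :: M := by
        rw [hT]
        refine ⟨?_, h4⟩
        intro z hz
        rw [Finset.mem_insert, Finset.mem_erase] at hz
        rcases hz with rfl | hz
        · exact Finset.mem_erase.2 ⟨hne, ha⟩
        · exact Finset.mem_erase.2 ⟨hz.1, h1 hz.2⟩
      refine ⟨_, h5, ⟨by simp, hTa _ h5, hTc _ h5⟩, ?_⟩
      rw [hκ]
      exact W4_inv hx h3 hne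
    · left
      rw [hT]
      refine ⟨?_, h2⟩
      intro z hz
      refine Finset.mem_erase.2 ⟨?_, h1 hz⟩
      rintro rfl
      exact hx hz

end Pool.Agent.LibFF40
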